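import Pool.Agent.Helper83_DPB.Stmts

/-!
Squad DPB: modules CLD and common lemmas.
-/

open Filter Topology Set

namespace Pool.Agent.Helper83_DPB.H83

variable {Ω A X : Type} [NormedAddCommGroup A] [NormedSpace ℂ A]
  [NormedAddCommGroup X] [NormedSpace ℂ X]

/-- a phase making a complex number nonnegative -/
theorem exists_phase (z : ℂ) : ∃ θ : ℂ, ‖θ‖ ≤ 1 ∧ θ * z = (‖z‖ : ℂ) := by
  by_cases h : z = 0
  · exact ⟨0, by simp, by simp [h]⟩
  · have hz : (‖z‖ : ℂ) ≠ 0 := by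
      intro h0
      exact h (norm_eq_zero.1 (Complex.ofReal_eq_zero.1 h0))
    refine ⟨(starRingEnd ℂ) z / ‖z‖, ?_, ?_⟩
    · rw [norm_div, RCLike.norm_conj, Complex.norm_real, norm_norm, div_self]
      exact fun h0 => h (norm_eq_zero.1 h0)
    · rw [div_mul_eq_mul_div, mul_comm ((starRingEnd ℂ) z) z, Complex.mul_conj,
        Complex.normSq_eq_norm_sq]
      push_cast
      field_simp

theorem norm_sum_disj (S : BFS Ω A) (b : ℕ → Set Ω) (y : ℕ → A) (h : BD S b y)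
    (F : Finset ℕ) (θ : ℕ → ℂ) (hθ : ∀ k, ‖θ k‖ ≤ 1) : ‖∑ k ∈ F, θ k • y k‖ ≤ 1 := by
  refine S.le_ev _ 1 zero_le_one fun t => ?_
  have h1 : S.ev (∑ k ∈ F, θ k • y k) t = ∑ k ∈ F, θ k * S.ev (y k) t := by
    rw [map_sum, Finset.sum_apply]
    refine Finset.sum_congr rfl fun k _ => ?_
    rw [map_smul]
    rfl
  rw [h1]
  by_cases hex : ∃ k ∈ F, t ∈ b k
  · obtain ⟨k, hk, htk⟩ := hex
    rw [Finset.sum_eq_single k]
    · rw [norm_mul]
      have h2 := (S.ev_le (y k) t).trans (h.2.2.1 k)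
      exact mul_le_one₀ (hθ k) (norm_nonneg _) h2
    · intro l _ hl
      have h3 : t ∉ b l := fun htl => (Set.disjoint_left.1 (h.2.1 l k hl)) htl htk
      rw [h.2.2.2 l t h3, mul_zero]
    · intro hk'
      exact absurd hk hk'
  · rw [Finset.sum_eq_zero]
    · simp
    · intro k hk
      rw [h.2.2.2 k t (fun htk => hex ⟨k, hk, htk⟩), mul_zero]

theorem BD.sub {S : BFS Ω A} {b : ℕ → Set Ω} {y : ℕ → A} (h : BD S b y) {φ : ℕ → ℕ}
    (hφ : StrictMono φ) : BD S (fun n => b (φ n)) (fun n => y (φ n)) :=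
  ⟨fun n => h.1 _, fun i j hij => h.2.1 _ _ (fun he => hij (hφ.injective he)),
    fun n => h.2.2.1 _, fun n t ht => h.2.2.2 _ t ht⟩

theorem half_sum_le (F : Finset ℕ) : ∑ k ∈ F, ((1 : ℝ) / 2) ^ k ≤ 2 := by
  have h := (summable_geometric_two).sum_le_tsum F (fun i _ => by positivity)
  rw [tsum_geometric_two] at h
  exact h

theorem cld (hVar : VarStmt) (hWuc : WucStmt) (hCross : CrossStmt) : CldStmt := by
  intro Ω A X _ _ _ _ S J hG hSep T R μ Om L m g r h rt hOm hL hm hRT hno hh hhr hvg hrt hrtJ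
  rintro ⟨ν, c, hcB, hcd, hc⟩
  obtain ⟨-, -, -, -, -, -, hV7⟩ := hVar Ω A S
  set ρ : ℝ := ‖μ‖ + 1 / Om with hρ
  have hρpos : 0 < ρ := by positivity
  set D : ℕ → (A →L[ℂ] ℂ) := fun n => (rt n).comp (T.comp J.toContinuousLinearMap) with hD
  have hy : ∀ k, ∃ y : A, ‖y‖ ≤ 1 ∧ (∀ t ∉ c k, S.ev y t = 0) ∧ 4 * ρ < ‖D (ν k) y‖ :=
    fun k => hV7 (D (ν k)) (c k) (4 * ρ) (by have := hc k; linarith)
  choose y hy1 hy2 hy3 using hy
  have hBD : BD S c y := ⟨hcB, hcd, hy1, hy2⟩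
  have hev1 : ∀ᶠ n in atTop, ‖R (J (y n))‖ < 2 * Om := by
    by_contra hcon
    have hf : ∃ᶠ n in atTop, 2 * Om ≤ ‖R (J (y n))‖ := by
      rw [Filter.not_eventually] at hcon
      exact hcon.mono fun n hn => not_lt.1 hn
    obtain ⟨φ, hφ, hφ2⟩ := Filter.extraction_of_frequently_atTop hf
    exact hno ⟨_, _, BD.sub hBD hφ, hφ2⟩
  have hev2 : ∀ k : ℕ, ∀ᶠ n in atTop, (∃ z : A, ‖T (J (y n)) - J z‖ < (1 / 2) ^ k) ∧
      ‖R (J (y n))‖ < 2 * Om := by
    intro k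
    refine Filter.Eventually.and ?_ hev1
    exact hCross Ω A X S J hG hSep (T.comp J.toContinuousLinearMap) c y hBD ((1 / 2) ^ k)
      (by positivity)
  obtain ⟨φ, hφ, hφ2⟩ := Filter.extraction_forall_of_eventually hev2
  choose z hz using fun k => (hφ2 k).1
  have hBD' := BD.sub hBD hφ
  have hzsum : ∀ (t : Ω) (F : Finset ℕ), ∑ j ∈ F, ‖S.ev (z j) t‖ ≤ ‖T‖ + 2 := by
    intro t F
    choose θ hθ1 hθ2 using fun j => exists_phase (S.ev (z j) t)
    have h1 : ‖∑ j ∈ F, θ j • J (z j)‖ ≤ ‖T‖ + 2 := by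
      have h2 : ∑ j ∈ F, θ j • J (z j) = T (J (∑ j ∈ F, θ j • y (φ j))) -
          ∑ j ∈ F, θ j • (T (J (y (φ j))) - J (z j)) := by
        rw [map_sum, map_sum, ← Finset.sum_sub_distrib]
        refine Finset.sum_congr rfl fun j _ => ?_
        rw [map_smul, map_smul, smul_sub]
        abel
      rw [h2]
      refine (norm_sub_le _ _).trans (add_le_add ?_ ?_)
      · refine (T.le_opNorm _).trans ?_
        rw [J.norm_map]
        have h3 := norm_sum_disj S _ _ hBD' F θ hθ1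
        calc ‖T‖ * ‖∑ j ∈ F, θ j • y (φ j)‖ ≤ ‖T‖ * 1 := by gcongr
          _ = ‖T‖ := mul_one _
      · refine (norm_sum_le _ _).trans ?_
        refine (Finset.sum_le_sum fun j _ => ?_).trans (half_sum_le F)
        rw [norm_smul]
        calc ‖θ j‖ * ‖T (J (y (φ j))) - J (z j)‖ ≤ 1 * (1 / 2) ^ j := by
              gcongr
              · exact hθ1 j
              · exact (hz j).le
          _ = (1 / 2) ^ j := one_mul _
    have h4 : ∑ j ∈ F, ‖S.ev (z j) t‖ = ‖S.ev (∑ j ∈ F, θ j • z j) t‖ := by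
      rw [map_sum, Finset.sum_apply]
      have h5 : ∑ j ∈ F, (S.ev (θ j • z j)) t = ((∑ j ∈ F, ‖S.ev (z j) t‖ : ℝ) : ℂ) := by
        rw [Complex.ofReal_sum]
        refine Finset.sum_congr rfl fun j _ => ?_
        rw [map_smul]
        exact hθ2 j
      rw [h5, Complex.norm_real, Real.norm_eq_abs, abs_of_nonneg]
      exact Finset.sum_nonneg fun j _ => norm_nonneg _
    rw [h4]
    refine (S.ev_le _ t).trans ?_
    rw [← J.norm_map, map_sum]
    simpa only [map_smul] using h1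
  obtain ⟨j0, hj0⟩ := hWuc Ω A S m L (‖T‖ + 2) z hm hL (by positivity) hzsum (ρ / 2)
    (by positivity)
  have hlim : Tendsto (fun j : ℕ => (6 + ‖R‖ / Om) * ((1 : ℝ) / 2) ^ j) atTop (𝓝 0) := by
    have := (tendsto_pow_atTop_nhds_zero_of_lt_one (r := (1 : ℝ) / 2) (by norm_num)
      (by norm_num)).const_mul (6 + ‖R‖ / Om)
    simpa using this
  obtain ⟨j, hj1, hj2⟩ := ((eventually_ge_atTop j0).and
    (hlim.eventually (gt_mem_nhds (show (0 : ℝ) < ρ / 2 by positivity)))).exists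
  set n := ν (φ j) with hn
  have e1 : ‖D n (y (φ j))‖ ≤ 6 * (1 / 2) ^ j + ‖r n (z j)‖ := by
    have h1 : D n (y (φ j)) = rt n (T (J (y (φ j))) - J (z j)) + r n (z j) := by
      rw [map_sub, hrtJ]
      simp [hD]
    rw [h1]
    refine (norm_add_le _ _).trans (add_le_add ?_ le_rfl)
    refine ((rt n).le_opNorm _).trans ?_
    exact mul_le_mul (hrt n) (hz j).le (norm_nonneg _) (by norm_num)
  have e2 : ‖g n (z j)‖ ≤ ρ / 2 := hj0 j hj1 (g n) (hvg n)
  have e3 : Om * ‖r n (z j)‖ ≤ ‖R‖ * (1 / 2) ^ j + (1 + ‖μ‖ * (2 * Om)) + Om * (ρ / 2) := by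
    have h1 : (Om : ℂ) * r n (z j) = h n (R (J (z j))) - (Om : ℂ) * g n (z j) := by
      rw [hhr n (z j)]; ring
    have h2 : ‖(Om : ℂ) * r n (z j)‖ = Om * ‖r n (z j)‖ := by
      rw [norm_mul, Complex.norm_real, Real.norm_eq_abs, abs_of_pos hOm]
    rw [← h2, h1]
    refine (norm_sub_le _ _).trans (add_le_add ?_ ?_)
    · refine ((h n).le_opNorm _).trans ?_
      have h3 : R (J (z j)) = -R (T (J (y (φ j))) - J (z j)) +
          (J (y (φ j)) + μ • R (J (y (φ j)))) := by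
        rw [← hRT, map_sub]; abel
      have h4 : ‖R (J (z j))‖ ≤ ‖R‖ * (1 / 2) ^ j + (1 + ‖μ‖ * (2 * Om)) := by
        rw [h3]
        refine (norm_add_le _ _).trans (add_le_add ?_ ?_)
        · rw [norm_neg]
          refine (R.le_opNorm _).trans ?_
          exact mul_le_mul_of_nonneg_left (hz j).le (norm_nonneg _)
        · refine (norm_add_le _ _).trans (add_le_add ?_ ?_)
          · rw [J.norm_map]; exact hy1 _
          · rw [norm_smul]
            exact mul_le_mul_of_nonneg_left (hφ2 j).2.le (norm_nonneg _)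
      calc ‖h n‖ * ‖R (J (z j))‖ ≤ 1 * (‖R‖ * (1 / 2) ^ j + (1 + ‖μ‖ * (2 * Om))) := by
            gcongr
            exact hh n
        _ = _ := one_mul _
    · rw [norm_mul, Complex.norm_real, Real.norm_eq_abs, abs_of_pos hOm]
      gcongr
  have e4 : ‖r n (z j)‖ ≤ ‖R‖ / Om * (1 / 2) ^ j + (1 / Om + ‖μ‖ * 2) + ρ / 2 := by
    have h1 : ‖r n (z j)‖ = (Om * ‖r n (z j)‖) / Om := by field_simp
    rw [h1, div_le_iff₀ hOm]
    refine e3.trans (le_of_eq ?_)
    field_simp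
  have e5 := hy3 (φ j)
  have e6 : (6 + ‖R‖ / Om) * ((1 : ℝ) / 2) ^ j = 6 * (1 / 2) ^ j + ‖R‖ / Om * (1 / 2) ^ j := by
    ring
  rw [e6] at hj2
  have e7 : 1 / Om + ‖μ‖ * 2 ≤ 2 * ρ := by
    rw [hρ]
    have : 0 < 1 / Om := by positivity
    linarith
  linarith

end Pool.Agent.Helper83_DPB.H83
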