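import Pool.Agent.Helper83_DPB.Cld

/-!
Squad DPB: module S4.
-/

open Filter Topology Set

namespace Pool.Agent.Helper83_DPB.H83

variable {Ω A X : Type} [NormedAddCommGroup A] [NormedSpace ℂ A]
  [NormedAddCommGroup X] [NormedSpace ℂ X]

/-- norm preserving extension from the image of a linear isometry -/
theorem exists_ext (J : A →ₗᵢ[ℂ] X) (f : A →L[ℂ] ℂ) :
    ∃ g : X →L[ℂ] ℂ, ‖g‖ ≤ ‖f‖ ∧ ∀ a, g (J a) = f a := by
  let e : A ≃ₗᵢ[ℂ] (LinearMap.range J.toLinearMap) :=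
    LinearIsometryEquiv.ofSurjective
      { toLinearMap := J.toLinearMap.rangeRestrict
        norm_map' := fun a => J.norm_map a }
      (LinearMap.surjective_rangeRestrict _)
  have he : ∀ a, ((e a : LinearMap.range J.toLinearMap) : X) = J a := fun a => rfl
  obtain ⟨g, hg1, hg2⟩ := exists_extension_norm_eq (𝕜 := ℂ) (LinearMap.range J.toLinearMap)
    (f.comp (e.symm.toContinuousLinearEquiv : (LinearMap.range J.toLinearMap) →L[ℂ] A))
  refine ⟨g, ?_, fun a => ?_⟩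
  · rw [hg2]
    refine ContinuousLinearMap.opNorm_le_bound _ (norm_nonneg f) fun x => ?_
    refine (f.le_opNorm _).trans (le_of_eq ?_)
    congr 1
    exact e.symm.norm_map x
  · have h1 := hg1 (e a)
    rw [he] at h1
    rw [h1]
    change f (e.symm (e a)) = f a
    rw [e.symm_apply_apply]

theorem alg_biUnion {B : Set (Set Ω)} (hB : IsAlg B) (b : ℕ → Set Ω) (hb : ∀ n, b n ∈ B)
    (F : Finset ℕ) : (⋃ i ∈ F, b i) ∈ B := by
  classical
  induction F using Finset.induction_on with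
  | empty => simpa using hB.empty
  | insert i F _ ih =>
    rw [Finset.set_biUnion_insert]
    exact hB.union _ (hb i) _ ih

theorem chg_empty {B : Set (Set Ω)} (hB : IsAlg B) {v : Set Ω → ℝ} (hv : IsChg B v) :
    v ∅ = 0 := by
  have := hv.add ∅ hB.empty ∅ hB.empty (Set.disjoint_empty _)
  rw [Set.union_empty] at this
  linarith

theorem chg_biUnion {B : Set (Set Ω)} (hB : IsAlg B) {v : Set Ω → ℝ} (hv : IsChg B v)
    (b : ℕ → Set Ω) (hb : ∀ n, b n ∈ B) (hd : ∀ i j, i ≠ j → Disjoint (b i) (b j))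
    (F : Finset ℕ) : v (⋃ i ∈ F, b i) = ∑ i ∈ F, v (b i) := by
  classical
  induction F using Finset.induction_on with
  | empty => simpa using chg_empty hB hv
  | insert i F hi ih =>
    rw [Finset.set_biUnion_insert, Finset.sum_insert hi, ← ih]
    refine hv.add _ (hb i) _ (alg_biUnion hB b hb F) ?_
    rw [Set.disjoint_iUnion₂_right]
    intro j hj
    exact hd i j (fun h => hi (h ▸ hj))

theorem s4 (hVar : VarStmt) (hTail : TailStmt) (hDom : DomStmt) (hRos : RosStmt)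
    (hSplit : SplitStmt) (hPar : ParStmt) (hCld : CldStmt) : S4Stmt := by
  classical
  intro Ω A X _ _ _ _ S J hG hSep T R μ s hs hRT hex P η hη
  obtain ⟨hV1, hV2, hV3, hV4, hV5, hV6, hV7⟩ := hVar Ω A S
  set SS : Set ℝ := {s' | ∃ (b : ℕ → Set Ω) (y : ℕ → A), BD S b y ∧
    ∀ n, s' ≤ ‖R (J (y n))‖} with hSS
  have hbdd : BddAbove SS := by
    refine ⟨‖R‖, ?_⟩
    rintro s' ⟨b, y, hBD, h⟩
    refine (h 0).trans ((R.le_opNorm _).trans ?_)
    rw [J.norm_map]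
    calc ‖R‖ * ‖y 0‖ ≤ ‖R‖ * 1 := by gcongr; exact hBD.2.2.1 0
      _ = ‖R‖ := mul_one _
  have hsS : s ∈ SS := hex
  set Om := sSup SS with hOmdef
  have hsOm : s ≤ Om := le_csSup hbdd hsS
  have hOm : 0 < Om := hs.trans_le hsOm
  have hno : ¬ ∃ (b : ℕ → Set Ω) (y : ℕ → A), BD S b y ∧ ∀ n, 2 * Om ≤ ‖R (J (y n))‖ := by
    intro h
    have := le_csSup hbdd (show 2 * Om ∈ SS from h)
    linarith
  obtain ⟨s', ⟨b, e, hBD, he⟩, hs'⟩ := exists_lt_of_lt_csSup ⟨s, hsS⟩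
    (show Om / 2 < sSup SS by rw [← hOmdef]; linarith)
  have he' : ∀ n, Om / 2 ≤ ‖R (J (e n))‖ := fun n => hs'.le.trans (he n)
  set ρ : ℝ := ‖μ‖ + 1 / Om with hρ
  have hρpos : 0 < ρ := by positivity
  -- norming functionals
  have hh : ∀ n, ∃ h : X →L[ℂ] ℂ, ‖h‖ ≤ 1 ∧ h (R (J (e n))) = (‖R (J (e n))‖ : ℂ) := by
    intro n
    obtain ⟨h, h1, h2⟩ := exists_dual_vector ℂ (R (J (e n))) (by
      have := he' n
      intro h0
      rw [h0] at this
      linarith)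
    exact ⟨h, h1.le, h2⟩
  choose h hh1 hh2 using hh
  set a : ℕ → (A →L[ℂ] ℂ) := fun n =>
    ((1 / Om : ℝ) : ℂ) • ((h n).comp (R.comp J.toContinuousLinearMap)) with ha
  have ha1 : ∀ n z, a n z = ((1 / Om : ℝ) : ℂ) * h n (R (J z)) := fun n z => rfl
  have ha2 : ∀ n z, ‖a n z‖ ≤ 1 / Om * ‖R (J z)‖ := by
    intro n z
    rw [ha1, norm_mul, Complex.norm_real, Real.norm_eq_abs, abs_of_pos (by positivity)]
    refine mul_le_mul_of_nonneg_left ?_ (by positivity)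
    calc ‖h n (R (J z))‖ ≤ ‖h n‖ * ‖R (J z)‖ := (h n).le_opNorm _
      _ ≤ 1 * ‖R (J z)‖ := by gcongr; exact hh1 n
      _ = _ := one_mul _
  have ha3 : ∀ n, ‖a n‖ ≤ ‖R‖ / Om := by
    intro n
    refine ContinuousLinearMap.opNorm_le_bound _ (by positivity) fun z => ?_
    refine (ha2 n z).trans ?_
    have h1 : ‖R (J z)‖ ≤ ‖R‖ * ‖z‖ := by
      refine (R.le_opNorm _).trans ?_
      rw [J.norm_map]
    calc 1 / Om * ‖R (J z)‖ ≤ 1 / Om * (‖R‖ * ‖z‖) := by gcongr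
      _ = ‖R‖ / Om * ‖z‖ := by ring
  have ha4 : ∀ n, 1 / 2 ≤ ‖a n (e n)‖ := by
    intro n
    rw [ha1, hh2, norm_mul, Complex.norm_real, Complex.norm_real, norm_norm, Real.norm_eq_abs,
      abs_of_pos (by positivity)]
    have h1 := he' n
    calc (1 : ℝ) / 2 = 1 / Om * (Om / 2) := by field_simp
      _ ≤ 1 / Om * ‖R (J (e n))‖ := by gcongr
  -- first domination
  obtain ⟨m, δ, hm, hδ, hmδ⟩ := hDom Ω S.B S.alg (Set.range fun n => vr S (a n)) (‖R‖ / Om) 3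
    (by norm_num) (by rintro _ ⟨n, rfl⟩; exact hV1 _)
    (by rintro _ ⟨n, rfl⟩; exact (hV3 _ _).trans (ha3 n)) (by
      rintro ⟨v, c, hv, hc, hcd, hvc⟩
      apply hno
      have h1 : ∀ k, ∃ y : A, ‖y‖ ≤ 1 ∧ (∀ t ∉ c k, S.ev y t = 0) ∧ 2 * Om ≤ ‖R (J y)‖ := by
        intro k
        obtain ⟨n, hn⟩ := hv k
        have h2 := hvc k
        rw [← hn] at h2
        obtain ⟨y, hy1, hy2, hy3⟩ := hV7 (a n) (c k) 2 (by
          change 3 ≤ vr S (a n) (c k) at h2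
          linarith)
        refine ⟨y, hy1, hy2, ?_⟩
        have h3 := hy3.le.trans (ha2 n y)
        rw [one_div, inv_mul_eq_div, le_div_iff₀ hOm] at h3
        exact h3
      choose y hy1 hy2 hy3 using h1
      exact ⟨c, y, ⟨hc, hcd, hy1, hy2⟩, hy3⟩)
  set L : ℝ := 2 * (‖R‖ / Om + 1) / δ with hL
  have hLpos : 0 ≤ L := by positivity
  have hsp : ∀ n, ∃ g r : A →L[ℂ] ℂ, a n = g + r ∧ ‖r‖ ≤ 6 ∧ ∀ b ∈ S.B, vr S g b ≤ L * m b := by
    intro n
    obtain ⟨g, r, h1, h2, h3⟩ := hSplit Ω A S (a n) m δ 6 hm hδ (fun b hb hmb => by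
      have := hmδ b hb hmb _ ⟨n, rfl⟩
      have h4 : vr S (a n) b < 2 * 3 := this
      linarith)
    refine ⟨g, r, h1, h2, fun b hb => (h3 b hb).trans ?_⟩
    have h5 := hm.nonneg b hb
    refine mul_le_mul_of_nonneg_right ?_ h5
    rw [hL]
    have := ha3 n
    gcongr
  choose g r hgr hr hg using hsp
  have hrt : ∀ n, ∃ q : X →L[ℂ] ℂ, ‖q‖ ≤ 6 ∧ ∀ z, q (J z) = r n z := by
    intro n
    obtain ⟨q, h1, h2⟩ := exists_ext J (r n)
    exact ⟨q, h1.trans (hr n), h2⟩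
  choose rt hrt1 hrt2 using hrt
  set D : ℕ → (A →L[ℂ] ℂ) := fun n => (rt n).comp (T.comp J.toContinuousLinearMap) with hD
  have hD1 : ∀ n z, D n z = rt n (T (J z)) := fun n z => rfl
  have hD2 : ∀ n, ‖D n‖ ≤ 6 * ‖T‖ := by
    intro n
    refine ContinuousLinearMap.opNorm_le_bound _ (by positivity) fun z => ?_
    rw [hD1]
    calc ‖rt n (T (J z))‖ ≤ ‖rt n‖ * ‖T (J z)‖ := (rt n).le_opNorm _
      _ ≤ 6 * (‖T‖ * ‖J z‖) := by
        refine mul_le_mul (hrt1 n) (T.le_opNorm _) (norm_nonneg _) (by norm_num)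
      _ = 6 * ‖T‖ * ‖z‖ := by rw [J.norm_map]; ring
  have hcld := hCld Ω A X S J hG hSep T R μ Om L m g r h rt hOm hLpos hm hRT hno hh1 (by
    intro n z
    have h1 : a n z = g n z + r n z := by rw [hgr n]; rfl
    rw [← h1, ha1]
    have hOmC : (Om : ℂ) ≠ 0 := Complex.ofReal_ne_zero.2 hOm.ne'
    push_cast
    field_simp) hg hrt1 hrt2
  obtain ⟨m', δ', hm', hδ', hmδ'⟩ := hDom Ω S.B S.alg (Set.range fun n => vr S (D n))
    (6 * ‖T‖) (8 * ρ) (by positivity) (by rintro _ ⟨n, rfl⟩; exact hV1 _)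
    (by rintro _ ⟨n, rfl⟩; exact (hV3 _ _).trans (hD2 n)) (by
      rintro ⟨v, c, hv, hc, hcd, hvc⟩
      choose ν hν using hv
      refine hcld ⟨ν, c, hc, hcd, fun k => ?_⟩
      have h1 := hvc k
      rw [← hν k] at h1
      exact h1)
  set L' : ℝ := 2 * (6 * ‖T‖ + 1) / δ' with hL'
  have hLpos' : 0 ≤ L' := by positivity
  have hsp' : ∀ n, ∃ g r : A →L[ℂ] ℂ, D n = g + r ∧ ‖r‖ ≤ 16 * ρ ∧
      ∀ b ∈ S.B, vr S g b ≤ L' * m' b := by
    intro n
    obtain ⟨g, r, h1, h2, h3⟩ := hSplit Ω A S (D n) m' δ' (16 * ρ) hm' hδ' (fun b hb hmb => by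
      have := hmδ' b hb hmb _ ⟨n, rfl⟩
      have h4 : vr S (D n) b < 2 * (8 * ρ) := this
      linarith)
    refine ⟨g, r, h1, h2, fun b hb => (h3 b hb).trans ?_⟩
    have h5 := hm'.nonneg b hb
    refine mul_le_mul_of_nonneg_right ?_ h5
    rw [hL']
    have := hD2 n
    gcongr
  choose g' r' hgr' hr' hg' using hsp'
  -- discard finitely many indices
  obtain ⟨n1, hn1⟩ := hTail Ω S.B S.alg m hm b hBD.1 hBD.2.1 (1 / (8 * (L + 1)))
    (by positivity)
  have hre : ∀ n ≥ n1, 3 / 8 ≤ ‖r n (e n)‖ := by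
    intro n hn
    have h1 := hn1 {n} (by intro k hk; rw [Finset.mem_singleton.1 hk]; exact hn)
    rw [Finset.sum_singleton] at h1
    have h2 : ‖g n (e n)‖ ≤ L * m (b n) := by
      calc ‖g n (e n)‖ ≤ vr S (g n) (b n) * ‖e n‖ := hV2 _ _ _ (hBD.2.2.2 n)
        _ ≤ (L * m (b n)) * 1 := by
          refine mul_le_mul (hg n _ (hBD.1 n)) (hBD.2.2.1 n) (norm_nonneg _) ?_
          have := hm.nonneg _ (hBD.1 n)
          positivity
        _ = _ := mul_one _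
    have h3 : L * m (b n) ≤ 1 / 8 := by
      have h4 := hm.nonneg _ (hBD.1 n)
      calc L * m (b n) ≤ (L + 1) * (1 / (8 * (L + 1))) := by gcongr; linarith
        _ = 1 / 8 := by field_simp
    have h5 : a n (e n) = g n (e n) + r n (e n) := by
      conv_lhs => rw [hgr n]
      rfl
    have h6 := ha4 n
    rw [h5] at h6
    have h7 := norm_add_le (g n (e n)) (r n (e n))
    linarith
  -- near diagonality
  obtain ⟨κ, hκ, hκ2⟩ := hRos Ω S.B S.alg (fun k => vr S (r (k + n1))) 6 (1 / 16)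
    (by norm_num) (fun k => hV1 _) (fun k => (hV3 _ _).trans (hr _)) (fun k => b (k + n1))
    (fun k => hBD.1 _) (fun i j hij => hBD.2.1 _ _ (fun he => hij (by omega)))
  set ψ : ℕ → ℕ := fun i => κ i + n1 with hψ
  have hψm : StrictMono ψ := fun i j hij => by
    have := hκ hij
    simp only [hψ]
    omega
  have hψ2 : ∀ i, ∀ F : Finset ℕ, i ∉ F → ∑ j ∈ F, vr S (r (ψ i)) (b (ψ j)) ≤ 1 / 16 := hκ2
  have hBDψ := BD.sub hBD hψm
  have hN0 : ∃ N0 : ℕ, ∀ f ∈ P, ∀ F : Finset ℕ, (∀ k ∈ F, N0 ≤ k) →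
      ∑ k ∈ F, vr S f (b (ψ k)) ≤ η := by
    have h1 := fun f : A →L[ℂ] ℂ => hTail Ω S.B S.alg (vr S f) (hV1 f) _ hBDψ.1 hBDψ.2.1 η hη
    choose k0 hk0 using h1
    refine ⟨P.sup k0, fun f hf F hF => hk0 f F fun k hk => ?_⟩
    exact (Finset.le_sup (f := k0) hf).trans (hF k hk)
  obtain ⟨N0, hN0⟩ := hN0
  obtain ⟨I, K, α, β, hI, hK, hIK, hα, hβ, hα1, hβ1, hIKn⟩ := hPar Ω A S m' L'
    (fun i => g' (ψ i)) hm' hLpos' (fun n b hb => hg' _ b hb) (8 * ρ) (by positivity) N0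
  choose θ hθ1 hθ2 using fun i => exists_phase (r (ψ i) (e (ψ i)))
  set sg : ℕ → ℂ := fun i => if i ∈ I then 1 else -1 with hsg
  have hsg1 : ∀ i, ‖sg i * θ i‖ ≤ 1 := by
    intro i
    rw [norm_mul]
    have : ‖sg i‖ = 1 := by
      simp only [hsg]
      split_ifs <;> simp
    rw [this, one_mul]
    exact hθ1 i
  set y : A := ∑ i ∈ I ∪ K, (sg i * θ i) • e (ψ i) with hy
  set c : X →L[ℂ] ℂ := ∑ i ∈ I, (α i : ℂ) • rt (ψ i) - ∑ i ∈ K, (β i : ℂ) • rt (ψ i) with hc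
  have hsum6 : ∀ (F : Finset ℕ) (γ : ℕ → ℝ), (∀ i, 0 ≤ γ i) → ∑ i ∈ F, γ i = 1 →
      ∀ (E : Type) [NormedAddCommGroup E] [NormedSpace ℂ E] (f : ℕ → E) (M : ℝ),
      (∀ i, ‖f i‖ ≤ M) → ‖∑ i ∈ F, (γ i : ℂ) • f i‖ ≤ M := by
    intro F γ hγ hγ1 E _ _ f M hf
    refine (norm_sum_le _ _).trans ?_
    calc ∑ i ∈ F, ‖(γ i : ℂ) • f i‖ ≤ ∑ i ∈ F, γ i * M := by
          refine Finset.sum_le_sum fun i _ => ?_
          rw [norm_smul, Complex.norm_real, Real.norm_eq_abs, abs_of_nonneg (hγ i)]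
          exact mul_le_mul_of_nonneg_left (hf i) (hγ i)
      _ = M := by rw [← Finset.sum_mul, hγ1, one_mul]
  refine ⟨c, y, ⋃ i ∈ I ∪ K, b (ψ i), alg_biUnion S.alg _ hBDψ.1 _, ?_, ?_, ?_, ?_, ?_, ?_⟩
  · rw [hc]
    refine (norm_sub_le _ _).trans ?_
    have h1 := hsum6 I α hα hα1 _ (fun i => rt (ψ i)) 6 (fun i => hrt1 _)
    have h2 := hsum6 K β hβ hβ1 _ (fun i => rt (ψ i)) 6 (fun i => hrt1 _)
    linarith
  · exact norm_sum_disj S _ _ hBDψ _ _ hsg1
  · intro t ht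
    rw [hy, map_sum, Finset.sum_apply]
    refine Finset.sum_eq_zero fun i hi => ?_
    rw [map_smul]
    have : t ∉ b (ψ i) := fun h0 => ht (Set.mem_biUnion (x := i) hi h0)
    change (sg i * θ i) * S.ev (e (ψ i)) t = 0
    rw [hBD.2.2.2 (ψ i) t this, mul_zero]
  · -- lower bound
    have hoff : ∀ i ∈ I ∪ K, ‖r (ψ i) y - sg i * (‖r (ψ i) (e (ψ i))‖ : ℂ)‖ ≤ 1 / 16 := by
      intro i hi
      have h1 : r (ψ i) y = sg i * (‖r (ψ i) (e (ψ i))‖ : ℂ) +
          ∑ l ∈ (I ∪ K).erase i, (sg l * θ l) * r (ψ i) (e (ψ l)) := by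
        rw [hy, map_sum, ← Finset.add_sum_erase _ _ hi]
        congr 1
        · rw [map_smul, smul_eq_mul, mul_assoc, hθ2]
        · refine Finset.sum_congr rfl fun l _ => ?_
          rw [map_smul, smul_eq_mul]
      rw [h1, add_sub_cancel_left]
      refine (norm_sum_le _ _).trans ?_
      refine (Finset.sum_le_sum fun l _ => ?_).trans (hψ2 i ((I ∪ K).erase i)
        (Finset.notMem_erase i _))
      rw [norm_mul]
      calc ‖sg l * θ l‖ * ‖r (ψ i) (e (ψ l))‖ ≤ 1 * (vr S (r (ψ i)) (b (ψ l)) * ‖e (ψ l)‖) := by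
            refine mul_le_mul (hsg1 l) (hV2 _ _ _ (hBD.2.2.2 _)) (norm_nonneg _) zero_le_one
        _ ≤ 1 * (vr S (r (ψ i)) (b (ψ l)) * 1) := by
            have := (hV1 (r (ψ i))).nonneg _ (hBD.1 (ψ l))
            gcongr
            exact hBD.2.2.1 _
        _ = _ := by ring
    have hreI : ∀ i ∈ I, 5 / 16 ≤ (r (ψ i) y).re := by
      intro i hi
      have h1 := hoff i (Finset.mem_union_left _ hi)
      have h2 : sg i = 1 := by simp [hsg, hi]
      rw [h2, one_mul] at h1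
      have h3 := (Complex.abs_re_le_norm _).trans h1
      rw [Complex.sub_re, Complex.ofReal_re, abs_le] at h3
      have h4 := hre (ψ i) (by simp only [hψ]; omega)
      linarith [h3.1]
    have hreK : ∀ i ∈ K, (r (ψ i) y).re ≤ -(5 / 16) := by
      intro i hi
      have h1 := hoff i (Finset.mem_union_right _ hi)
      have h2 : sg i = -1 := by
        have : i ∉ I := fun h0 => (Finset.disjoint_left.1 hIK) h0 hi
        simp [hsg, this]
      rw [h2] at h1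
      have h3 := (Complex.abs_re_le_norm _).trans h1
      have h5 : (r (ψ i) y - -1 * (‖r (ψ i) (e (ψ i))‖ : ℂ)).re =
          (r (ψ i) y).re + ‖r (ψ i) (e (ψ i))‖ := by
        simp
      rw [h5, abs_le] at h3
      have h4 := hre (ψ i) (by simp only [hψ]; omega)
      linarith [h3.2]
    have hcy : c (J y) = ∑ i ∈ I, (α i : ℂ) * r (ψ i) y - ∑ i ∈ K, (β i : ℂ) * r (ψ i) y := by
      rw [hc]
      simp [hrt2]
    have h1 : 5 / 8 ≤ (c (J y)).re := by
      rw [hcy, Complex.sub_re, Complex.re_sum, Complex.re_sum]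
      have h2 : ∑ i ∈ I, α i * (5 / 16) ≤ ∑ i ∈ I, ((α i : ℂ) * r (ψ i) y).re := by
        refine Finset.sum_le_sum fun i hi => ?_
        rw [Complex.re_ofReal_mul]
        exact mul_le_mul_of_nonneg_left (hreI i hi) (hα i)
      have h3 : ∑ i ∈ K, ((β i : ℂ) * r (ψ i) y).re ≤ ∑ i ∈ K, β i * (-(5 / 16)) := by
        refine Finset.sum_le_sum fun i hi => ?_
        rw [Complex.re_ofReal_mul]
        exact mul_le_mul_of_nonneg_left (hreK i hi) (hβ i)
      rw [← Finset.sum_mul, hα1] at h2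
      rw [← Finset.sum_mul, hβ1] at h3
      linarith
    have h2 := Complex.re_le_norm (c (J y))
    linarith
  · intro f hf
    rw [chg_biUnion S.alg (hV1 f) _ hBDψ.1 hBDψ.2.1]
    refine hN0 f hf _ fun k hk => ?_
    rcases Finset.mem_union.1 hk with hk | hk
    · exact hI k hk
    · exact hK k hk
  · intro z
    have h1 : c (T (J z)) = (∑ i ∈ I, (α i : ℂ) • g' (ψ i) - ∑ i ∈ K, (β i : ℂ) • g' (ψ i)) z +
        ((∑ i ∈ I, (α i : ℂ) • r' (ψ i)) z - (∑ i ∈ K, (β i : ℂ) • r' (ψ i)) z) := by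
      have h2 : ∀ i, rt (ψ i) (T (J z)) = g' (ψ i) z + r' (ψ i) z := by
        intro i
        rw [← hD1, hgr']
        rfl
      rw [hc]
      simp only [ContinuousLinearMap.sub_apply, ContinuousLinearMap.sum_apply,
        ContinuousLinearMap.smul_apply, h2, smul_add, Finset.sum_add_distrib]
      ring
    have h2 := hsum6 I α hα hα1 _ (fun i => r' (ψ i)) (16 * ρ) (fun i => hr' _)
    have h3 := hsum6 K β hβ hβ1 _ (fun i => r' (ψ i)) (16 * ρ) (fun i => hr' _)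
    have h4 : ‖c (T (J z))‖ ≤ 40 * ρ * ‖z‖ := by
      rw [h1]
      refine (norm_add_le _ _).trans ?_
      have e1 := (ContinuousLinearMap.le_opNorm
        (∑ i ∈ I, (α i : ℂ) • g' (ψ i) - ∑ i ∈ K, (β i : ℂ) • g' (ψ i)) z).trans
        (mul_le_mul_of_nonneg_right hIKn (norm_nonneg z))
      have e2 := (norm_sub_le ((∑ i ∈ I, (α i : ℂ) • r' (ψ i)) z)
        ((∑ i ∈ K, (β i : ℂ) • r' (ψ i)) z))
      have e3 := (ContinuousLinearMap.le_opNorm (∑ i ∈ I, (α i : ℂ) • r' (ψ i)) z).trans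
        (mul_le_mul_of_nonneg_right h2 (norm_nonneg z))
      have e4 := (ContinuousLinearMap.le_opNorm (∑ i ∈ K, (β i : ℂ) • r' (ψ i)) z).trans
        (mul_le_mul_of_nonneg_right h3 (norm_nonneg z))
      linarith
    refine h4.trans ?_
    have h5 : ρ ≤ ‖μ‖ + 1 / s := by
      rw [hρ]
      have := one_div_le_one_div_of_le hs hsOm
      linarith
    gcongr

end Pool.Agent.Helper83_DPB.H83
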