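import Pool.Agent.Helper83_DPB.Stmts
import Pool.Agent.Helper85_DPB.Ht
import Pool.Agent.Helper3_DPB.Jmp
import Pool.Agent.Helper3_DPB.Xm

/-!
Squad DPB (MP_e2cf1f_an): module YY.
-/

open Filter Topology Set

namespace Pool.Agent.Helper83_DPB.HYY

open H85

theorem prg_le (M : ℕ) (s : Sym) (v : VV) (C : ℝ) (h : Bd v C) : ‖prg M s v‖ ≤ C := by
  obtain ⟨h0, h1, h2⟩ := h
  cases s with
  | l2 b k =>
    have e2 : (v.2.sum fun n a => a * cf2 M (Sym.l2 b k) n) = 0 := by
      rw [Finsupp.sum]
      exact Finset.sum_eq_zero fun n _ => by simp [cf2]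
    unfold prg
    rw [e2, add_zero, Finsupp.sum]
    by_cases hb : adm M b
    · have hsq : (∑ n ∈ v.1.support, ‖v.1 n‖ * ‖cf1 M (Sym.l2 b k) n‖) ^ 2 ≤ C ^ 2 := by
        refine (Finset.sum_mul_sq_le_sq_mul_sq _ _ _).trans ?_
        have h3 : ∑ n ∈ v.1.support, ‖cf1 M (Sym.l2 b k) n‖ ^ 2 ≤ 1 := by
          have h4 : ∀ n, ‖cf1 M (Sym.l2 b k) n‖ ^ 2 = (((b n) ^ 2 : ℚ) : ℝ) := by
            intro n
            simp only [cf1]
            rw [if_pos hb, show ((b n : ℚ) : ℂ) = (((b n : ℚ) : ℝ) : ℂ) by push_cast; rfl,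
              Complex.norm_real, Real.norm_eq_abs, sq_abs]
            push_cast
            rfl
          have h5 : ∑ n ∈ v.1.support, (b n) ^ 2 ≤ ∑ n ∈ b.support, (b n) ^ 2 := by
            have h6 : ∑ n ∈ v.1.support, (b n) ^ 2 = ∑ n ∈ v.1.support ∩ b.support, (b n) ^ 2 := by
              symm
              apply Finset.sum_subset Finset.inter_subset_left
              intro n hn hn'
              have : n ∉ b.support := fun hh => hn' (Finset.mem_inter.2 ⟨hn, hh⟩)
              rw [Finsupp.notMem_support_iff.1 this]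
              norm_num
            rw [h6]
            exact Finset.sum_le_sum_of_subset_of_nonneg Finset.inter_subset_right
              (fun n _ _ => sq_nonneg _)
          have h7 := h5.trans hb.2.1
          calc ∑ n ∈ v.1.support, ‖cf1 M (Sym.l2 b k) n‖ ^ 2
              = ((∑ n ∈ v.1.support, (b n) ^ 2 : ℚ) : ℝ) := by
                rw [Finset.sum_congr rfl fun n _ => h4 n]
                push_cast
                rfl
            _ ≤ 1 := by exact_mod_cast h7
        calc _ ≤ C ^ 2 * 1 := by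
              apply mul_le_mul h1 h3 (Finset.sum_nonneg fun n _ => sq_nonneg _) (sq_nonneg _)
          _ = C ^ 2 := mul_one _
      have h8 := abs_le_of_sq_le_sq hsq h0
      refine (norm_sum_le _ _).trans ?_
      refine le_trans (le_of_eq ?_) (le_of_abs_le h8)
      exact Finset.sum_congr rfl fun n _ => norm_mul _ _
    · have : ∑ n ∈ v.1.support, v.1 n * cf1 M (Sym.l2 b k) n = 0 := by
        refine Finset.sum_eq_zero fun n _ => ?_
        simp only [cf1]
        rw [if_neg hb, mul_zero]
      rw [this, norm_zero]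
      exact h0
  | c0 n' k =>
    have e1 : (v.1.sum fun n a => a * cf1 M (Sym.c0 n' k) n) = 0 := by
      rw [Finsupp.sum]
      exact Finset.sum_eq_zero fun n _ => by simp [cf1]
    unfold prg
    rw [e1, zero_add, Finsupp.sum]
    have h3 : ∑ n ∈ v.2.support, v.2 n * cf2 M (Sym.c0 n' k) n =
        v.2 n' * cf2 M (Sym.c0 n' k) n' := by
      by_cases hn : n' ∈ v.2.support
      · apply Finset.sum_eq_single_of_mem n' hn
        intro n _ hne
        simp only [cf2]
        rw [if_neg (fun h => hne h.1.symm), mul_zero]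
      · rw [Finsupp.notMem_support_iff.1 hn, zero_mul]
        refine Finset.sum_eq_zero fun n hn' => ?_
        simp only [cf2]
        rw [if_neg, mul_zero]
        rintro ⟨rfl, -⟩
        exact hn hn'
    rw [h3, norm_mul]
    calc ‖v.2 n'‖ * ‖cf2 M (Sym.c0 n' k) n'‖ ≤ C * 1 :=
          mul_le_mul (h2 n') (cf2_le _ _ _) (norm_nonneg _) h0
      _ = C := mul_one _
  | mark k =>
    have : prg M (Sym.mark k) v = 0 := by
      unfold prg
      rw [Finsupp.sum, Finsupp.sum, Finset.sum_eq_zero, Finset.sum_eq_zero, add_zero]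
      · intro n _; simp [cf2]
      · intro n _; simp [cf1]
    rw [this, norm_zero]
    exact h0

open Classical in
/-- the summands of the bounded modification -/
noncomputable def GG (m : ℕ) (v : VV) (i : ℕ) (x : Pt) : ℂ :=
  if isBlk (x i) ∧ ¬ isBlk (x (i + 1)) ∧ ht x i < m ∧ m ≤ ht x (i + 2) then
    prg (ht x i) (x i) v else 0

/-- the bounded modification -/
noncomputable def YF (m : ℕ) (v : VV) (x : Pt) : ℂ := ∑ i ∈ Finset.range m, GG m v i x

theorem GG_uniq {m : ℕ} {v : VV} {i j : ℕ} {x : Pt} (hi : GG m v i x ≠ 0) (hj : GG m v j x ≠ 0)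
    (hij : i < j) : False := by
  unfold GG at hi hj
  split_ifs at hi hj with h1 h2
  · have h3 := ht_mono x (show i + 1 ≤ j by omega)
    rcases Nat.lt_or_ge (i + 1) j with h | h
    · have h4 := ht_mono x (show i + 2 ≤ j by omega)
      omega
    · have : j = i + 1 := by omega
      subst this
      exact h1.2.1 h2.1
  · exact hj rfl
  · exact hi rfl
  · exact hi rfl

theorem YF_le (m : ℕ) (v : VV) (C : ℝ) (h : Bd v C) (x : Pt) : ‖YF m v x‖ ≤ C := by
  unfold YF
  by_cases hz : ∃ i ∈ Finset.range m, GG m v i x ≠ 0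
  · obtain ⟨i, hi, hne⟩ := hz
    rw [Finset.sum_eq_single_of_mem i hi]
    · unfold GG
      split_ifs with h1
      · exact prg_le _ _ _ _ h
      · rw [norm_zero]; exact h.1
    · intro j _ hji
      by_contra hne'
      rcases Nat.lt_or_ge i j with hlt | hge
      · exact GG_uniq hne hne' hlt
      · exact GG_uniq hne' hne (lt_of_le_of_ne hge hji)
  · push Not at hz
    rw [Finset.sum_eq_zero hz, norm_zero]
    exact h.1

theorem meas_GG (m : ℕ) (v : VV) (i : ℕ) : Measurable (GG m v i) := by
  classical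
  have h1 : Measurable (fun x : Pt => ((ht x i, x i), (x (i + 1), ht x (i + 2)))) :=
    ((H3.meas_ht i).prodMk (measurable_pi_apply i)).prodMk
      ((measurable_pi_apply (i + 1)).prodMk (H3.meas_ht (i + 2)))
  have h2 : Measurable (fun p : (ℕ × Sym) × (Sym × ℕ) =>
      if isBlk p.1.2 ∧ ¬ isBlk p.2.1 ∧ p.1.1 < m ∧ m ≤ p.2.2 then prg p.1.1 p.1.2 v else 0) :=
    measurable_of_countable _
  exact h2.comp h1

theorem meas_YF (m : ℕ) (v : VV) : Measurable (YF m v) := by
  have : YF m v = fun x => ∑ i ∈ Finset.range m, GG m v i x := rfl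
  rw [this]
  exact Finset.measurable_sum _ fun i _ => meas_GG m v i

theorem mem_YF (m : ℕ) (v : VV) (C : ℝ) (h : Bd v C) : Memℓp (fun x : Pt => YF m v x) ⊤ := by
  refine memℓp_infty ⟨C, ?_⟩
  rintro _ ⟨x, rfl⟩
  exact YF_le m v C h x

theorem GG_agree {m : ℕ} {v : VV} {σ : List Sym} {x y : Pt} (hx : x ∈ cyl σ) (hy : y ∈ cyl σ)
    {i : ℕ} (hi : i + 1 < σ.length) : GG m v i x = GG m v i y := by
  unfold GG
  have e1 : x i = y i := by rw [hx i (by omega), hy i (by omega)]
  have e2 : x (i + 1) = y (i + 1) := by rw [hx (i + 1) hi, hy (i + 1) hi]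
  have e3 : ht x i = ht y i := H3.agree hx hy i (by omega)
  have e4 : ht x (i + 2) = ht y (i + 2) := H3.agree hx hy (i + 2) (by omega)
  rw [e1, e2, e3, e4]

/-- the common value at a node -/
noncomputable def SS0 (m : ℕ) (v : VV) (σ : List Sym) : ℂ :=
  ∑ i ∈ (Finset.range m).filter (fun i => i + 1 < σ.length), GG m v i (extPt σ (Sym.mark 0))

theorem val_P {m : ℕ} {v : VV} {σ : List Sym} {x : Pt} (hx : x ∈ Pset σ m) :
    YF m v x = SS0 m v σ := by
  obtain ⟨hc, k, hk, hxk⟩ := hx
  unfold YF SS0
  rw [Finset.sum_filter]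
  apply Finset.sum_congr rfl
  intro i hi
  split_ifs with h
  · exact GG_agree hc (extPt_mem _ _) h
  · have h1 : k ≤ ht x (σ.length + 1) := by
      change k ≤ nxt (ht x σ.length) (x σ.length)
      rw [hxk]
      simp [nxt]
    unfold GG
    split_ifs with h2
    · rcases Nat.lt_trichotomy i σ.length with h3 | h3 | h3
      · have : i + 1 = σ.length := by omega
        exfalso
        apply h2.2.1
        rw [this, hxk]
        trivial
      · rw [h3, hxk]
        unfold prg
        rw [Finsupp.sum, Finsupp.sum, Finset.sum_eq_zero, Finset.sum_eq_zero, add_zero]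
        · intro n _; simp [cf2]
        · intro n _; simp [cf1]
      · have h4 := ht_mono x (show σ.length + 1 ≤ i by omega)
        omega
    · rfl

theorem prg_big {m M : ℕ} {s : Sym} {v : VV} (h1 : ∀ n ∈ v.1.support, n < m)
    (h2 : ∀ n ∈ v.2.support, n < m) (hM : m ≤ M) : prg M s v = 0 := by
  unfold prg
  rw [Finsupp.sum, Finsupp.sum, Finset.sum_eq_zero, Finset.sum_eq_zero, add_zero]
  · intro n hn
    by_contra hne
    have h3 := (cf2_ne M s n (right_ne_zero_of_mul hne)).1
    have := h2 n hn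
    omega
  · intro n hn
    by_contra hne
    have h3 := (cf1_ne M s n (right_ne_zero_of_mul hne)).1
    have := h1 n hn
    omega

theorem val_Q {m : ℕ} {v : VV} (h1 : ∀ n ∈ v.1.support, n < m)
    (h2 : ∀ n ∈ v.2.support, n < m) {σ : List Sym} {s : Sym} (hs : isBlk s) {x : Pt}
    (hx : x ∈ Qset (σ ++ [s]) m) : YF m v x = SS0 m v σ + prg (htL σ) s v := by
  obtain ⟨hc, k, hk, hxk⟩ := hx
  have hc' := (mem_cyl_snoc σ s x).1 hc
  have hl : (σ ++ [s]).length = σ.length + 1 := by simp
  rw [hl] at hxk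
  have hh : ht x σ.length = htL σ := ht_len σ x hc'.1
  have hk1 : k ≤ ht x (σ.length + 2) := by
    change k ≤ nxt (ht x (σ.length + 1)) (x (σ.length + 1))
    rw [hxk]
    simp [nxt]
  have key : ∀ i, GG m v i x = (if i + 1 < σ.length then GG m v i (extPt σ (Sym.mark 0)) else 0) +
      (if i = σ.length then prg (htL σ) s v else 0) := by
    intro i
    rcases Nat.lt_trichotomy i σ.length with h3 | h3 | h3
    · rw [if_neg (show ¬ i = σ.length by omega), add_zero]
      split_ifs with h
      · exact GG_agree hc'.1 (extPt_mem _ _) h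
      · have h4 : i + 1 = σ.length := by omega
        unfold GG
        rw [if_neg]
        rintro ⟨-, h5, -⟩
        apply h5
        rw [h4, hc'.2]
        exact hs
    · rw [if_neg (show ¬ i + 1 < σ.length by omega), if_pos h3, zero_add, h3]
      unfold GG
      rw [hh, hc'.2]
      by_cases hm : htL σ < m
      · rw [if_pos]
        refine ⟨hs, ?_, hm, hk.trans hk1⟩
        rw [hxk]
        exact fun h => h
      · rw [if_neg (fun h => hm h.2.2.1), prg_big h1 h2 (not_lt.1 hm)]
    · rw [if_neg (show ¬ i + 1 < σ.length by omega), if_neg (show ¬ i = σ.length by omega),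
        add_zero]
      unfold GG
      rw [if_neg]
      rintro ⟨h5, -, h6, -⟩
      rcases Nat.eq_or_lt_of_le (show σ.length + 1 ≤ i by omega) with h7 | h7
      · rw [← h7, hxk] at h5
        exact h5
      · have h8 := ht_mono x (show σ.length + 2 ≤ i by omega)
        omega
  unfold YF SS0
  rw [Finset.sum_congr rfl fun i _ => key i, Finset.sum_add_distrib, Finset.sum_filter]
  congr 1
  rw [Finset.sum_ite_eq']
  split_ifs with h
  · rfl
  · rw [Finset.mem_range, not_lt] at h
    have h9 : m ≤ htL σ := by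
      rw [← hh]
      exact h.trans (le_ht x σ.length)
    rw [prg_big h1 h2 h9]

theorem yy : YyStmt := by
  intro v C hv
  obtain ⟨m, h1, h2⟩ : ∃ m : ℕ, (∀ n ∈ v.1.support, n < m) ∧ (∀ n ∈ v.2.support, n < m) := by
    refine ⟨(v.1.support ∪ v.2.support).sup id + 1, ?_, ?_⟩
    · intro n hn
      exact Nat.lt_succ_of_le (Finset.le_sup (f := id) (Finset.mem_union_left _ hn))
    · intro n hn
      exact Nat.lt_succ_of_le (Finset.le_sup (f := id) (Finset.mem_union_right _ hn))
  set y : LI Pt := ⟨fun x => YF m v x, mem_YF m v C hv⟩ with hy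
  have hyn : ‖y‖ ≤ C := lp.norm_le_of_forall_le hv.1 fun x => YF_le m v C hv x
  refine ⟨UU v - y, ?_, ?_⟩
  · refine ⟨?_, ?_⟩
    · have hm1 : Measurable ((UU v : LI Pt) : Pt → ℂ) := H3.xm.1 _ (H3.xm.2.1 v)
      exact hm1.sub (meas_YF m v)
    · rintro ⟨σ, s, hs⟩
      have hj := H3.jmp ht_stmt σ s hs v
      have e1 : LU (pF σ) y = SS0 m v σ := by
        apply H3.LU_const
        filter_upwards [Pset_mem σ m] with x hx
        exact val_P hx
      have e2 : LU (qF (σ ++ [s])) y = SS0 m v σ + prg (htL σ) s v := by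
        apply H3.LU_const
        filter_upwards [Qset_mem (σ ++ [s]) m] with x hx
        exact val_Q h1 h2 hs hx
      change LU (pF σ) (UU v - y) = LU (qF (σ ++ [s])) (UU v - y)
      rw [map_sub, map_sub, e1, e2]
      linear_combination (-1 : ℂ) * hj
  · rw [sub_sub_cancel]
    exact hyn

end Pool.Agent.Helper83_DPB.HYY
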