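import Pool.Agent.Helper83_DPB.Asm
import Pool.Agent.Helper83_DPB.Cld
import Pool.Agent.Helper83_DPB.S4
import Pool.Agent.Helper15_DPB.S5
import Pool.Agent.Helper18_DPB.Chg
import Pool.Agent.Helper2_DPB.Bfs
import Pool.Agent.Helper2_DPB.Nd
import Pool.Agent.Helper34_DPB.Fdl
import Pool.Agent.Helper38_DPB.Gz
import Pool.Agent.Helper38_DPB.Ss
import Pool.Agent.Helper3_DPB.Jmp
import Pool.Agent.Helper3_DPB.Ng
import Pool.Agent.Helper3_DPB.Nrm
import Pool.Agent.Helper3_DPB.Xm
import Pool.Agent.Helper63_DPB.Blk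
import Pool.Agent.Helper63_DPB.Dim
import Pool.Agent.Helper63_DPB.Om
import Pool.Agent.Helper63_DPB.Sel
import Pool.Agent.Helper66_DPB.Bc
import Pool.Agent.Helper66_DPB.Flat
import Pool.Agent.Helper73_DPB.Sep
import Pool.Agent.Helper77_DPB.Par
import Pool.Agent.Helper77_DPB.Var
import Pool.Agent.Helper77_DPB.Var5
import Pool.Agent.Helper77_DPB.Wuc
import Pool.Agent.Helper85_DPB.Ht
import Pool.Agent.Helper85_DPB.Ub
import Pool.Agent.Helper3_DPB.Cross
import Pool.Agent.Helper3_DPB.Ns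
import Pool.Agent.Helper3_DPB.Split
import Pool.Agent.Helper77_DPB.Fc
import Pool.Agent.Helper77_DPB.Sub
import Pool.Agent.Helper83_DPB.Yy
import Pool.Agent.Helper92_DPB.Ulim

/-!
Squad DPB (MP_e2cf1f_an): all modules together.
-/

namespace Pool.Agent.Helper83_DPB

theorem all :
    ∃ (X : Type) (_ : NormedAddCommGroup X) (_ : NormedSpace ℂ X) (_ : CompleteSpace X),
      PropB X ∧ ¬ GrothendieckProp X ∧ ¬ DunfordPettisProp X := by
  have hSub : SubStmt := H77.sub
  have hYy : YyStmt := HYY.yy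
  have hVar : VarStmt := H77.var
  have hVar5 : Var5Stmt := H77.var5
  have hWuc : WucStmt := H77.wuc
  have hPar : ParStmt := H77.par
  have hTail : TailStmt := H18.tail
  have hDisj : DisjStmt := H18.disj
  have hDom : DomStmt := H18.dom
  have hRos : RosStmt := H18.ros
  have hFdl : FdlStmt := H34.fdl
  have hDim : DimStmt := H63.dim hFdl
  have hSel : SelStmt := H63.sel
  have hOm : OmStmt := H63.om hDom hDim hVar
  have hHt : HtStmt := H85.ht_stmt
  have hUb : UbStmt := H85.ub hHt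
  have hJmp : JmpStmt := H3.jmp hHt
  have hXm : XmStmt := H3.xm
  have hNrm : NrmStmt := H3.nrm
  have hNg : NgStmt := H3.ng hJmp hYy hXm
  have hNd : NdStmt := H2.nd hJmp hUb hXm
  have hBfs : BfsStmt := H2.bfs
  have hBlk : BlkStmt := H63.blk hXm hJmp hUb
  have hBc : BcStmt := H66.bc
  have hFlat : FlatStmt := H66F.flat
  have hGz : GzStmt := H38.gz
  have hSs : SsStmt := H38.ss hBlk hFlat hNrm hBc hJmp hYy hXm
  have hSep : SepStmt := H73.sep
  have hFc : FcStmt := H77.fc
  have hNs : NsStmt := H3.ns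
  have hUlim : UlimStmt := H92.ulim
  have hSplit : SplitStmt := H3.split hUlim hVar
  have hCross : CrossStmt := H3.cross hSub hTail hVar hVar5
  have hCld : CldStmt := H83.cld hVar hWuc hCross
  have hS4 : S4Stmt := H83.s4 hVar hTail hDom hRos hSplit hPar hCld
  have hS5 : S5Stmt := H15.s5 hVar hVar5 hDisj hSub
  have hB0 : B0Stmt := b0_of hNs hFc hSel hOm hS4 hS5
  exact final_of hB0 hBfs hGz hSep hSs hNg hNd

end Pool.Agent.Helper83_DPB
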