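import Pool.Agent.Helper83_DPB.Stmts

/-!
Squad DPB (MP_e2cf1f_an): assembly.
-/

open Filter Topology Set

namespace Pool.Agent.Helper83_DPB

theorem b0_of (hNs : NsStmt) (hFc : FcStmt) (hSel : SelStmt) (hOm : OmStmt) (hS4 : S4Stmt)
    (hS5 : S5Stmt) : B0Stmt := by
  intro Ω A X _ _ _ _ _ S J hG hSep hSS T lam hlam hinj
  set T' : X →L[ℂ] X := T - lam • (1 : X →L[ℂ] X) with hT'
  have hspec : lam ∈ spectrum ℂ T := by
    have := frontier_subset_closure hlam
    rwa [(spectrum.isClosed (𝕜 := ℂ) T).closure_eq] at this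
  have hun : ∀ z : ℂ, z ∉ spectrum ℂ T → IsUnit (T - z • (1 : X →L[ℂ] X)) := by
    intro z hz
    rw [spectrum.notMem_iff] at hz
    have h1 : T - z • (1 : X →L[ℂ] X) = -(algebraMap ℂ (X →L[ℂ] X) z - T) := by
      rw [Algebra.algebraMap_eq_smul_one]; abel
    rw [h1]
    exact hz.neg
  have hnot : ¬ IsUnit T' := by
    intro h
    rw [spectrum.mem_iff] at hspec
    apply hspec
    have h1 : algebraMap ℂ (X →L[ℂ] X) lam - T = -T' := by
      rw [Algebra.algebraMap_eq_smul_one, hT']; abel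
    rw [h1]
    exact h.neg
  have hnear : ∀ ε > 0, ∃ μ : ℂ, μ ≠ 0 ∧ ‖μ‖ < ε ∧ IsUnit (T' - μ • (1 : X →L[ℂ] X)) := by
    intro ε hε
    have h1 : lam ∈ closure (spectrum ℂ T)ᶜ := by
      rw [frontier_eq_closure_inter_closure] at hlam
      exact hlam.2
    obtain ⟨z, hz, hd⟩ := Metric.mem_closure_iff.1 h1 ε hε
    refine ⟨z - lam, ?_, ?_, ?_⟩
    · intro h
      apply hz
      rw [sub_eq_zero] at h
      rwa [h]
    · rwa [dist_comm, dist_eq_norm] at hd
    · have h2 : T' - (z - lam) • (1 : X →L[ℂ] X) = T - z • (1 : X →L[ℂ] X) := by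
        rw [hT', sub_smul]; abel
      rw [h2]
      exact hun z hz
  have hdense : DenseRange T' := by
    by_contra hnd
    have hne : (LinearMap.range T'.toLinearMap).topologicalClosure ≠ ⊤ := by
      intro h
      apply hnd
      have h2 : Dense ((LinearMap.range T'.toLinearMap : Submodule ℂ X) : Set X) :=
        (Submodule.dense_iff_topologicalClosure_eq_top).2 h
      have h3 : ((LinearMap.range T'.toLinearMap : Submodule ℂ X) : Set X) = Set.range T' := by
        ext x; simp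
      rw [h3] at h2
      exact h2
    obtain ⟨x, hx⟩ : ∃ x, x ∉ (LinearMap.range T'.toLinearMap).topologicalClosure := by
      by_contra hcon
      push Not at hcon
      exact hne (Submodule.eq_top_iff'.2 hcon)
    set Y := (LinearMap.range T'.toLinearMap).topologicalClosure with hY
    have : IsClosed (Y : Set X) := Submodule.isClosed_topologicalClosure _
    obtain ⟨g, hg, hg1⟩ : ∃ g : X →L[ℂ] ℂ, g x ≠ 0 ∧ ∀ y ∈ Y, g y = 0 := by
      obtain ⟨g, -, hg⟩ := exists_dual_vector ℂ (Y.mkQ x) (by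
        intro h0
        apply hx
        rw [norm_eq_zero] at h0
        exact (Submodule.Quotient.mk_eq_zero Y).1 h0)
      refine ⟨g.comp Y.mkQL, ?_, ?_⟩
      · have h1 : (g.comp Y.mkQL) x = g (Y.mkQ x) := rfl
        rw [h1, hg]
        have h2 : ‖(Y.mkQ x : X ⧸ Y)‖ ≠ 0 := by
          intro h0
          rw [norm_eq_zero] at h0
          apply hx
          exact (Submodule.Quotient.mk_eq_zero Y).1 h0
        intro h3
        exact h2 (Complex.ofReal_eq_zero.1 h3)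
      · intro y hy
        have h1 : (g.comp Y.mkQL) y = g (Y.mkQ y) := rfl
        rw [h1]
        have h2 : (Y.mkQ y : X ⧸ Y) = 0 := (Submodule.Quotient.mk_eq_zero Y).2 hy
        rw [h2, map_zero]
    have hg0 : g.comp T - lam • g = (0 : X →L[ℂ] ℂ).comp T - lam • (0 : X →L[ℂ] ℂ) := by
      ext y
      have h1 : g (T' y) = 0 := hg1 _ (Submodule.le_topologicalClosure _ ⟨y, rfl⟩)
      have h2 : g (T' y) = g (T y) - lam * g y := by
        simp [hT']
      simpa [h2] using h1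
    have := hinj hg0
    rw [this] at hg
    simp at hg
  have hns : ¬ Function.Surjective T' := hNs X T' hnot hnear
  have hfc := hFc X T' hdense hns
  have hsel := hSel A X J T' hSS hfc
  refine hS5 Ω A X S J hG hSep T' hdense ?_
  intro ε hε P η hη
  obtain ⟨μ, hμ0, hμ, hμu⟩ := hnear (ε / 360) (by positivity)
  have hμpos : 0 < ‖μ‖ := norm_pos_iff.2 hμ0
  obtain ⟨R, hR⟩ : ∃ R : X →L[ℂ] X, ∀ x, R (T' x) = x + μ • R x := by
    obtain ⟨u, hu⟩ := hμu
    refine ⟨(u⁻¹ : (X →L[ℂ] X)ˣ), fun x => ?_⟩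
    have h1 : ((u⁻¹ : (X →L[ℂ] X)ˣ) : X →L[ℂ] X) ((u : X →L[ℂ] X) x) = x := by
      have h0 := DFunLike.congr_fun u.inv_mul x
      exact h0
    rw [hu] at h1
    have h2 : (T' - μ • (1 : X →L[ℂ] X)) x = T' x - μ • x := by simp
    rw [h2, map_sub, map_smul] at h1
    exact sub_eq_iff_eq_add.1 h1
  have hOm' := hOm Ω A X S J R (1 / (2 * ‖μ‖)) (by positivity) (by
    intro N
    obtain ⟨w, κ, hκ, hw, hT⟩ := hsel N (1 / (2 * (‖R‖ + 1))) (by positivity)
    refine ⟨w, κ, hκ, hw, fun a => ?_⟩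
    set z := ∑ j, a j • w j with hz
    have h1 := hT a
    have h2 : ‖J z‖ ≤ ‖R‖ * ‖T' (J z)‖ + ‖μ‖ * ‖R (J z)‖ := by
      have h3 : J z = R (T' (J z)) - μ • R (J z) := by rw [hR]; simp
      calc ‖J z‖ = ‖R (T' (J z)) - μ • R (J z)‖ := by rw [← h3]
        _ ≤ ‖R (T' (J z))‖ + ‖μ • R (J z)‖ := norm_sub_le _ _
        _ ≤ ‖R‖ * ‖T' (J z)‖ + ‖μ‖ * ‖R (J z)‖ := by
          rw [norm_smul]
          gcongr
          exact R.le_opNorm _
    rw [J.norm_map] at h2
    have h4 : ‖R‖ * ‖T' (J z)‖ ≤ ‖z‖ / 2 := by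
      calc ‖R‖ * ‖T' (J z)‖ ≤ ‖R‖ * (1 / (2 * (‖R‖ + 1)) * ‖z‖) := by gcongr
        _ = (‖R‖ / (‖R‖ + 1)) * (‖z‖ / 2) := by
          field_simp
        _ ≤ 1 * (‖z‖ / 2) := by
          gcongr
          rw [div_le_one (by positivity)]
          linarith
        _ = ‖z‖ / 2 := one_mul _
    have h5 : ‖z‖ / 2 ≤ ‖μ‖ * ‖R (J z)‖ := by linarith
    rw [div_mul_eq_mul_div, one_mul, div_le_iff₀ (by positivity)]
    linarith)
  obtain ⟨b, y, hBD, hby⟩ := hOm'
  obtain ⟨c, y', b', h1, h2, h3, h4, h5, h6, h7⟩ := hS4 Ω A X S J hG hSep T' R μ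
    (1 / (2 * ‖μ‖) / 4) (by positivity) hR ⟨b, y, hBD, hby⟩ P η hη
  refine ⟨c, y', b', h1, h2, h3, h4, h5, h6, fun a => (h7 a).trans ?_⟩
  gcongr
  have h8 : (1 : ℝ) / (1 / (2 * ‖μ‖) / 4) = 8 * ‖μ‖ := by
    field_simp
    ring
  rw [h8]
  linarith

/-- The final theorem from the main modules. -/
theorem final_of (hB : B0Stmt) (hBfs : BfsStmt) (hG : GzStmt) (hSep : SepStmt) (hSs : SsStmt)
    (hNg : NgStmt) (hNd : NdStmt) :
    ∃ (X : Type) (_ : NormedAddCommGroup X) (_ : NormedSpace ℂ X) (_ : CompleteSpace X),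
      PropB X ∧ ¬ GrothendieckProp X ∧ ¬ DunfordPettisProp X := by
  obtain ⟨S, h1, h2⟩ := hBfs Pt PrI PP QQ
  have hc : CompleteSpace XX := (Submodule.isClosed_topologicalClosure _).completeSpace_coe
  refine ⟨XX, inferInstance, inferInstance, hc, ?_, hNg, hNd⟩
  exact hB Pt AA XX S JJ (hG Pt PrI PP QQ S h1 h2) hSep hSs

end Pool.Agent.Helper83_DPB
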