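import Mathlib

/-!
Squad DPB (MP_e2cf1f_an): definitions.
-/

open Filter Topology Set

namespace Pool.Agent.Helper83_DPB

/-! ### The three properties of the problem -/

/-- Property (B): the boundary of the spectrum of every bounded operator T consists of
points lam such that (adjoint of T) minus lam is not injective. -/
def PropB (X : Type) [NormedAddCommGroup X] [NormedSpace ℂ X] : Prop :=
  ∀ (T : X →L[ℂ] X) (lam : ℂ), lam ∈ frontier (spectrum ℂ T) →
    ¬ Function.Injective (fun f : X →L[ℂ] ℂ => f.comp T - lam • f)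

/-- The Grothendieck property: weak star convergent sequences in the dual converge weakly. -/
def GrothendieckProp (X : Type) [NormedAddCommGroup X] [NormedSpace ℂ X] : Prop :=
  ∀ (f : ℕ → (X →L[ℂ] ℂ)) (g : X →L[ℂ] ℂ),
    (∀ x, Tendsto (fun n => f n x) atTop (𝓝 (g x))) →
    ∀ xi : (X →L[ℂ] ℂ) →L[ℂ] ℂ, Tendsto (fun n => xi (f n)) atTop (𝓝 (xi g))

/-- The Dunford-Pettis property. -/
def DunfordPettisProp (X : Type) [NormedAddCommGroup X] [NormedSpace ℂ X] : Prop :=
  ∀ (x : ℕ → X) (f : ℕ → (X →L[ℂ] ℂ)),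
    (∀ g : X →L[ℂ] ℂ, Tendsto (fun n => g (x n)) atTop (𝓝 0)) →
    (∀ xi : (X →L[ℂ] ℂ) →L[ℂ] ℂ, Tendsto (fun n => xi (f n)) atTop (𝓝 0)) →
    Tendsto (fun n => f n (x n)) atTop (𝓝 0)

/-! ### Part I: Boolean function spaces -/

/-- an algebra of subsets -/
structure IsAlg {Ω : Type} (B : Set (Set Ω)) : Prop where
  empty : (∅ : Set Ω) ∈ B
  compl : ∀ b ∈ B, bᶜ ∈ B
  union : ∀ b ∈ B, ∀ c ∈ B, b ∪ c ∈ B

/-- nonnegative finitely additive set function on B -/
structure IsChg {Ω : Type} (B : Set (Set Ω)) (v : Set Ω → ℝ) : Prop where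
  nonneg : ∀ b ∈ B, 0 ≤ v b
  add : ∀ b ∈ B, ∀ c ∈ B, Disjoint b c → v (b ∪ c) = v b + v c

/-- A Boolean function space: a normed space A of bounded functions on Ω with the sup norm,
an algebra B of subsets of Ω such that A is a B-module and the B-simple functions are dense. -/
structure BFS (Ω A : Type) [NormedAddCommGroup A] [NormedSpace ℂ A] where
  B : Set (Set Ω)
  alg : IsAlg B
  ev : A →ₗ[ℂ] (Ω → ℂ)
  ev_le : ∀ a t, ‖ev a t‖ ≤ ‖a‖
  le_ev : ∀ (a : A) (C : ℝ), 0 ≤ C → (∀ t, ‖ev a t‖ ≤ C) → ‖a‖ ≤ C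
  one_ex : ∃ a : A, ∀ t, ev a t = 1
  cut_ex : ∀ b ∈ B, ∀ a : A, ∃ a' : A, ∀ t, ev a' t = b.indicator (ev a) t
  approx : ∀ a : A, ∀ ε > 0, ∃ (n : ℕ) (p : Ω → Fin n) (z : Fin n → ℂ),
    (∀ i, p ⁻¹' {i} ∈ B) ∧ ∀ t, ‖ev a t - z (p t)‖ ≤ ε

section

variable {Ω A X : Type} [NormedAddCommGroup A] [NormedSpace ℂ A]
  [NormedAddCommGroup X] [NormedSpace ℂ X]

/-- the variation of a functional on a set -/
noncomputable def vr (S : BFS Ω A) (f : A →L[ℂ] ℂ) (b : Set Ω) : ℝ :=
  sSup {r : ℝ | ∃ y : A, ‖y‖ ≤ 1 ∧ (∀ t ∉ b, S.ev y t = 0) ∧ r = ‖f y‖}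

/-- Grothendieck type property of the algebra: pointwise null sequences of functionals tend to
zero along indicators of disjoint sets. -/
def G0 (S : BFS Ω A) : Prop :=
  ∀ f : ℕ → (A →L[ℂ] ℂ), (∀ y, Tendsto (fun n => f n y) atTop (𝓝 0)) →
    ∀ (b : ℕ → Set Ω) (e : ℕ → A), (∀ n, b n ∈ S.B) → (∀ m n, m ≠ n → Disjoint (b m) (b n)) →
      (∀ n t, S.ev (e n) t = (b n).indicator (fun _ => (1 : ℂ)) t) →
      Tendsto (fun n => f n (e n)) atTop (𝓝 0)

/-- X modulo the image of A is separable. -/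
def SepJ (J : A →ₗᵢ[ℂ] X) : Prop :=
  ∃ x : ℕ → X, ∀ z : X, ∀ ε > 0, ∃ y ∈ Submodule.span ℂ (Set.range x), ∃ a : A,
    ‖z - y - J a‖ < ε

/-- the quotient map from X to X / A is strictly singular -/
def SSJ (J : A →ₗᵢ[ℂ] X) : Prop :=
  ∀ Z : Submodule ℂ X, ¬ FiniteDimensional ℂ Z → ∀ ε > 0, ∃ w ∈ Z, ‖w‖ = 1 ∧
    ∃ a : A, ‖w - J a‖ < ε

end

/-! ### Part II: the example -/

/-- bounded complex functions on Ω with the sup norm -/
abbrev LI (Ω : Type) : Type := lp (fun _ : Ω => ℂ) ⊤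

theorem li_bdd {Ω : Type} (f : LI Ω) (t : Ω) : ‖(f : Ω → ℂ) t‖ ≤ ‖f‖ :=
  lp.norm_apply_le_norm ENNReal.top_ne_zero f t

theorem exists_lim {Ω : Type} (P : Ultrafilter Ω) (f : LI Ω) :
    ∃ z : ℂ, Tendsto (fun t => (f : Ω → ℂ) t) P (𝓝 z) := by
  have hc : IsCompact (Metric.closedBall (0 : ℂ) ‖f‖) := isCompact_closedBall _ _
  have h : (P.map (f : Ω → ℂ) : Filter ℂ) ≤ 𝓟 (Metric.closedBall (0 : ℂ) ‖f‖) := by
    rw [le_principal_iff]
    change (f : Ω → ℂ) ⁻¹' (Metric.closedBall (0 : ℂ) ‖f‖) ∈ P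
    exact Filter.univ_mem' (fun t => by simpa using li_bdd f t)
  obtain ⟨z, -, hz⟩ := hc.ultrafilter_le_nhds (P.map (f : Ω → ℂ)) h
  exact ⟨z, hz⟩

/-- the limit of a bounded function along an ultrafilter -/
noncomputable def LU {Ω : Type} (P : Ultrafilter Ω) : LI Ω →L[ℂ] ℂ :=
  LinearMap.mkContinuous
    { toFun := fun f => (exists_lim P f).choose
      map_add' := fun f g => by
        refine tendsto_nhds_unique (exists_lim P (f + g)).choose_spec ?_
        have := (exists_lim P f).choose_spec.add (exists_lim P g).choose_spec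
        simpa using this
      map_smul' := fun c f => by
        refine tendsto_nhds_unique (exists_lim P (c • f)).choose_spec ?_
        have := (exists_lim P f).choose_spec.const_smul c
        simpa using this }
    1 (fun f => by
      rw [one_mul]
      refine le_of_tendsto (exists_lim P f).choose_spec.norm ?_
      exact Filter.Eventually.of_forall (fun t => li_bdd f t))

theorem LU_spec {Ω : Type} (P : Ultrafilter Ω) (f : LI Ω) :
    Tendsto (fun t => (f : Ω → ℂ) t) P (𝓝 (LU P f)) :=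
  (exists_lim P f).choose_spec

theorem LU_norm {Ω : Type} (P : Ultrafilter Ω) (f : LI Ω) : ‖LU P f‖ ≤ ‖f‖ := by
  refine le_of_tendsto (LU_spec P f).norm ?_
  exact Filter.Eventually.of_forall (fun t => li_bdd f t)

/-- the Boolean algebra of measurable sets not separated by the pairs (P i, Q i) -/
def PB {Ω ι : Type} [MeasurableSpace Ω] (P Q : ι → Ultrafilter Ω) : Set (Set Ω) :=
  {b | MeasurableSet b ∧ ∀ i, b ∈ P i ↔ b ∈ Q i}

/-- the space of bounded measurable functions with equal limits along P i and Q i -/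
noncomputable def PA {Ω ι : Type} [MeasurableSpace Ω] (P Q : ι → Ultrafilter Ω) :
    Submodule ℂ (LI Ω) where
  carrier := {f | Measurable (f : Ω → ℂ) ∧ ∀ i, LU (P i) f = LU (Q i) f}
  add_mem' := by
    rintro f g ⟨hf, hf'⟩ ⟨hg, hg'⟩
    refine ⟨?_, fun i => by rw [map_add, map_add, hf' i, hg' i]⟩
    have := hf.add hg
    exact this
  zero_mem' := by
    refine ⟨?_, fun i => by rw [map_zero, map_zero]⟩
    have : Measurable (0 : Ω → ℂ) := measurable_zero
    exact this
  smul_mem' := by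
    rintro c f ⟨hf, hf'⟩
    refine ⟨?_, fun i => by rw [map_smul, map_smul, hf' i]⟩
    have := hf.const_smul c
    exact this

/-- the symbols -/
inductive Sym : Type
  | l2 (b : ℕ →₀ ℚ) (k : ℕ) : Sym
  | c0 (n k : ℕ) : Sym
  | mark (k : ℕ) : Sym

instance : TopologicalSpace Sym := ⊥
instance : DiscreteTopology Sym := ⟨rfl⟩
instance : MeasurableSpace Sym := ⊤

/-- the tree of sequences of symbols -/
abbrev Pt : Type := ℕ → Sym

/-- blocks are the symbols which are not marks -/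
def isBlk : Sym → Prop
  | .mark _ => False
  | _ => True

/-- admissible vectors at height M -/
def adm (M : ℕ) (b : ℕ →₀ ℚ) : Prop :=
  (∀ n ∈ b.support, M ≤ n) ∧ (∑ n ∈ b.support, (b n) ^ 2) ≤ 1 ∧ ∀ n, |b n| * (M + 1) ≤ 1

/-- the next height -/
def nxt (M : ℕ) : Sym → ℕ
  | .l2 b k => max (M + 1) (max k (b.support.sup (fun n => n + 1)))
  | .c0 n k => max (M + 1) (max k (n + 1))
  | .mark k => max (M + 1) k

/-- the heights along a sequence of symbols -/
def ht (x : Pt) : ℕ → ℕ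
  | 0 => 0
  | i + 1 => nxt (ht x i) (x i)

/-- the height of a node -/
def htL (σ : List Sym) : ℕ := σ.foldl nxt 0

open Classical in
/-- the contribution of the symbol s read at height M to the n-th coordinate of the
hilbertian part -/
noncomputable def cf1 (M : ℕ) : Sym → ℕ → ℂ
  | .l2 b _, n => if adm M b then ((b n : ℚ) : ℂ) else 0
  | _, _ => 0

open Classical in
/-- the contribution of the symbol s read at height M to the n-th coordinate of the
second part -/
noncomputable def cf2 (M : ℕ) : Sym → ℕ → ℂ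
  | .c0 n' _, n => if n' = n ∧ M ≤ n then 1 else 0
  | _, _ => 0

/-- coordinate functions, first kind -/
noncomputable def u1 (n : ℕ) (x : Pt) : ℂ := ∑ i ∈ Finset.range (n + 1), cf1 (ht x i) (x i) n

/-- coordinate functions, second kind -/
noncomputable def u2 (n : ℕ) (x : Pt) : ℂ := ∑ i ∈ Finset.range (n + 1), cf2 (ht x i) (x i) n

/-- the cylinder of a node -/
def cyl (σ : List Sym) : Set Pt := {x | ∀ i (h : i < σ.length), x i = σ[i]}

/-- the sets generating the ultrafilter p at a node -/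
def Pset (σ : List Sym) (K : ℕ) : Set Pt := {x | x ∈ cyl σ ∧ ∃ k ≥ K, x σ.length = Sym.l2 0 k}

/-- the sets generating the ultrafilter q at a node -/
def Qset (σ : List Sym) (K : ℕ) : Set Pt := {x | x ∈ cyl σ ∧ ∃ k ≥ K, x σ.length = Sym.mark k}


theorem countable_sym : Countable Sym := by
  let f : Sym → ((ℕ →₀ ℚ) × ℕ) ⊕ ((ℕ × ℕ) ⊕ ℕ) := fun s => match s with
    | .l2 b k => Sum.inl (b, k)
    | .c0 n k => Sum.inr (Sum.inl (n, k))
    | .mark k => Sum.inr (Sum.inr k)
  refine Function.Injective.countable (f := f) ?_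
  rintro (⟨b, k⟩ | ⟨n, k⟩ | ⟨k⟩) (⟨b', k'⟩ | ⟨n', k'⟩ | ⟨k'⟩) h <;> simp_all [f]

instance : Countable Sym := countable_sym

theorem baire_pt : BaireSpace Pt := inferInstance

instance : Inhabited Sym := ⟨Sym.mark 0⟩

theorem isOpen_cyl (σ : List Sym) : IsOpen (cyl σ) := by
  have : cyl σ = ⋂ i : Fin σ.length, (fun x : Pt => x i) ⁻¹' {σ[i]} := by
    ext x
    simp only [cyl, mem_ofPred_eq, mem_iInter, mem_preimage, mem_singleton_iff]
    exact ⟨fun h i => h i i.2, fun h i hi => h ⟨i, hi⟩⟩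
  rw [this]
  refine isOpen_iInter_of_finite fun i => ?_
  exact (isOpen_discrete _).preimage (continuous_apply _)

theorem isOpen_ext (σ : List Sym) (A : Set Sym) : IsOpen {x : Pt | x ∈ cyl σ ∧ x σ.length ∈ A} :=
  (isOpen_cyl σ).inter ((isOpen_discrete A).preimage (continuous_apply σ.length))

/-- the point with given initial segment followed by s -/
def extPt (σ : List Sym) (s : Sym) : Pt := fun i => if h : i < σ.length then σ[i] else s

theorem extPt_mem (σ : List Sym) (s : Sym) : extPt σ s ∈ cyl σ := by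
  intro i hi
  simp [extPt, hi]

theorem extPt_len (σ : List Sym) (s : Sym) : extPt σ s σ.length = s := by
  simp [extPt]

theorem exists_ultra (C : ℕ → Set Pt) (ho : ∀ K, IsOpen (C K)) (hn : ∀ K, (C K).Nonempty)
    (ha : Antitone C) : ∃ F : Ultrafilter Pt, (∀ K, C K ∈ F) ∧ ∀ U ∈ residual Pt, U ∈ F := by
  have hne : (residual Pt ⊓ ⨅ K, 𝓟 (C K)).NeBot := by
    have hb : (⨅ K, 𝓟 (C K)).HasBasis (fun _ : ℕ => True) C := by
      refine Filter.hasBasis_iInf_principal ?_
      intro a b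
      exact ⟨max a b, ha (le_max_left _ _), ha (le_max_right _ _)⟩
    rw [Filter.inf_neBot_iff]
    intro U hU V hV
    obtain ⟨K, -, hK⟩ := hb.mem_iff.1 hV
    obtain ⟨x, hx⟩ := (dense_of_mem_residual hU).inter_open_nonempty (C K) (ho K) (hn K)
    exact ⟨x, hx.2, hK hx.1⟩
  refine ⟨Ultrafilter.of (residual Pt ⊓ ⨅ K, 𝓟 (C K)), fun K => ?_, fun U hU => ?_⟩
  · have h1 : (⨅ K, 𝓟 (C K)) ≤ 𝓟 (C K) := iInf_le _ K
    have h2 := (Ultrafilter.of_le (residual Pt ⊓ ⨅ K, 𝓟 (C K))).trans (inf_le_right.trans h1)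
    exact le_principal_iff.1 h2
  · exact (Ultrafilter.of_le (residual Pt ⊓ ⨅ K, 𝓟 (C K))).trans inf_le_left hU

theorem exists_pF (σ : List Sym) :
    ∃ F : Ultrafilter Pt, (∀ K, Pset σ K ∈ F) ∧ ∀ U ∈ residual Pt, U ∈ F := by
  refine exists_ultra (Pset σ) (fun K => ?_) (fun K => ?_) ?_
  · exact isOpen_ext σ {s | ∃ k ≥ K, s = Sym.l2 0 k}
  · exact ⟨extPt σ (Sym.l2 0 K), extPt_mem _ _, K, le_rfl, extPt_len _ _⟩
  · rintro a b hab x ⟨hx, k, hk, h⟩
    exact ⟨hx, k, hab.trans hk, h⟩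

theorem exists_qF (σ : List Sym) :
    ∃ F : Ultrafilter Pt, (∀ K, Qset σ K ∈ F) ∧ ∀ U ∈ residual Pt, U ∈ F := by
  refine exists_ultra (Qset σ) (fun K => ?_) (fun K => ?_) ?_
  · exact isOpen_ext σ {s | ∃ k ≥ K, s = Sym.mark k}
  · exact ⟨extPt σ (Sym.mark K), extPt_mem _ _, K, le_rfl, extPt_len _ _⟩
  · rintro a b hab x ⟨hx, k, hk, h⟩
    exact ⟨hx, k, hab.trans hk, h⟩

/-- the ultrafilters at the nodes -/
noncomputable def pF (σ : List Sym) : Ultrafilter Pt := (exists_pF σ).choose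
noncomputable def qF (σ : List Sym) : Ultrafilter Pt := (exists_qF σ).choose

theorem Pset_mem (σ : List Sym) (K : ℕ) : Pset σ K ∈ pF σ := (exists_pF σ).choose_spec.1 K
theorem Qset_mem (σ : List Sym) (K : ℕ) : Qset σ K ∈ qF σ := (exists_qF σ).choose_spec.1 K
theorem residual_pF (σ : List Sym) {U : Set Pt} (hU : U ∈ residual Pt) : U ∈ pF σ :=
  (exists_pF σ).choose_spec.2 U hU
theorem residual_qF (σ : List Sym) {U : Set Pt} (hU : U ∈ residual Pt) : U ∈ qF σ :=
  (exists_qF σ).choose_spec.2 U hU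


/-- index set of the pairs -/
abbrev PrI : Type := List Sym × {s : Sym // isBlk s}

noncomputable def PP : PrI → Ultrafilter Pt := fun i => pF i.1
noncomputable def QQ : PrI → Ultrafilter Pt := fun i => qF (i.1 ++ [i.2.1])

/-- the Grothendieck algebra of the example -/
noncomputable abbrev AA : Submodule ℂ (LI Pt) := PA PP QQ

/-- finitely supported vectors of the separable quotient -/
abbrev VV : Type := (ℕ →₀ ℂ) × (ℕ →₀ ℂ)

/-- the pairing of a vector with the contribution of a symbol read at height M -/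
noncomputable def prg (M : ℕ) (s : Sym) (v : VV) : ℂ :=
  (v.1.sum fun n a => a * cf1 M s n) + (v.2.sum fun n a => a * cf2 M s n)

/-- the norm of v in the direct sum of l2 and c0 is at most C -/
def Bd (v : VV) (C : ℝ) : Prop :=
  0 ≤ C ∧ (∑ n ∈ v.1.support, ‖v.1 n‖ ^ 2) ≤ C ^ 2 ∧ ∀ n, ‖v.2 n‖ ≤ C

theorem cf1_le (M : ℕ) (s : Sym) (n : ℕ) : ‖cf1 M s n‖ ≤ 1 := by
  cases s with
  | l2 b k =>
    simp only [cf1]
    split_ifs with h
    · have h1 := h.2.2 n
      have h2 : |b n| ≤ 1 := by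
        have h3 : |b n| * 1 ≤ |b n| * ((M : ℚ) + 1) :=
          mul_le_mul_of_nonneg_left (by have : (0 : ℚ) ≤ M := Nat.cast_nonneg M
                                        linarith) (abs_nonneg _)
        linarith
      have h3 : ‖((b n : ℚ) : ℂ)‖ = ((|b n| : ℚ) : ℝ) := by
        rw [show ((b n : ℚ) : ℂ) = (((b n : ℚ) : ℝ) : ℂ) by push_cast; rfl, Complex.norm_real,
          Real.norm_eq_abs]
        push_cast
        rfl
      rw [h3]
      exact_mod_cast h2
    · simp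
  | c0 n' k => simp [cf1]
  | mark k => simp [cf1]

theorem cf2_le (M : ℕ) (s : Sym) (n : ℕ) : ‖cf2 M s n‖ ≤ 1 := by
  cases s with
  | l2 b k => simp [cf2]
  | c0 n' k =>
    simp only [cf2]
    split_ifs <;> simp
  | mark k => simp [cf2]

theorem u1_mem (n : ℕ) : Memℓp (fun x : Pt => u1 n x) ⊤ := by
  refine memℓp_infty ⟨n + 1, ?_⟩
  rintro _ ⟨x, rfl⟩
  refine (norm_sum_le _ _).trans ?_
  refine (Finset.sum_le_sum fun i _ => cf1_le (ht x i) (x i) n).trans ?_
  simp

theorem u2_mem (n : ℕ) : Memℓp (fun x : Pt => u2 n x) ⊤ := by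
  refine memℓp_infty ⟨n + 1, ?_⟩
  rintro _ ⟨x, rfl⟩
  refine (norm_sum_le _ _).trans ?_
  refine (Finset.sum_le_sum fun i _ => cf2_le (ht x i) (x i) n).trans ?_
  simp

/-- the coordinate functions as elements of the space of bounded functions -/
noncomputable def U1 (n : ℕ) : LI Pt := ⟨fun x => u1 n x, u1_mem n⟩
noncomputable def U2 (n : ℕ) : LI Pt := ⟨fun x => u2 n x, u2_mem n⟩

/-- the function of a vector -/
noncomputable def UU (v : VV) : LI Pt :=
  (v.1.sum fun n a => a • U1 n) + (v.2.sum fun n a => a • U2 n)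

/-- the space of the example -/
noncomputable abbrev XX : Submodule ℂ (LI Pt) :=
  (AA ⊔ Submodule.span ℂ (Set.range U1 ∪ Set.range U2)).topologicalClosure

theorem AA_le_XX : AA ≤ XX :=
  le_sup_left.trans (Submodule.le_topologicalClosure _)

/-- the inclusion -/
noncomputable def JJ : AA →ₗᵢ[ℂ] XX where
  toLinearMap := Submodule.inclusion AA_le_XX
  norm_map' := fun _ => rfl

end Pool.Agent.Helper83_DPB
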