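import Pool.Agent.Helper83_DPB.Defs

/-!
Squad DPB (MP_e2cf1f_an): exact statements of the modules.
-/

open Filter Topology Set

namespace Pool.Agent.Helper83_DPB

/-! ### Part I, pure combinatorics of finitely additive set functions -/

/-- TAIL -/
def TailStmt : Prop := ∀ (Ω : Type) (B : Set (Set Ω)), IsAlg B → ∀ v : Set Ω → ℝ, IsChg B v →
  ∀ b : ℕ → Set Ω, (∀ k, b k ∈ B) → (∀ i j, i ≠ j → Disjoint (b i) (b j)) →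
  ∀ ε > 0, ∃ k0 : ℕ, ∀ F : Finset ℕ, (∀ k ∈ F, k0 ≤ k) → ∑ k ∈ F, v (b k) ≤ ε

/-- DISJ -/
def DisjStmt : Prop := ∀ (Ω : Type) (B : Set (Set Ω)), IsAlg B →
  ∀ (v : ℕ → Set Ω → ℝ) (C ε : ℝ), 0 < ε → (∀ k, IsChg B (v k)) → (∀ k, v k univ ≤ C) →
  ∀ b : ℕ → Set Ω, (∀ k, b k ∈ B) → (∀ k, ε ≤ v k (b k)) →
  (∀ j k, j < k → v j (b k) ≤ ε * (1 / 2) ^ (k + 3)) →
  ∃ (κ : ℕ → ℕ) (c : ℕ → Set Ω), StrictMono κ ∧ (∀ i, c i ∈ B) ∧ (∀ i, c i ⊆ b (κ i)) ∧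
    (∀ i, ε / 2 ≤ v (κ i) (c i)) ∧ (∀ i j, i ≠ j → Disjoint (c i) (c j))

/-- DOM -/
def DomStmt : Prop := ∀ (Ω : Type) (B : Set (Set Ω)), IsAlg B →
  ∀ (G : Set (Set Ω → ℝ)) (C e : ℝ), 0 < e → (∀ v ∈ G, IsChg B v) → (∀ v ∈ G, v univ ≤ C) →
  (¬ ∃ (v : ℕ → Set Ω → ℝ) (c : ℕ → Set Ω), (∀ k, v k ∈ G) ∧ (∀ k, c k ∈ B) ∧
    (∀ i j, i ≠ j → Disjoint (c i) (c j)) ∧ ∀ k, e ≤ v k (c k)) →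
  ∃ (m : Set Ω → ℝ) (δ : ℝ), IsChg B m ∧ 0 < δ ∧ ∀ b ∈ B, m b < δ → ∀ v ∈ G, v b < 2 * e

/-- ROS -/
def RosStmt : Prop := ∀ (Ω : Type) (B : Set (Set Ω)), IsAlg B →
  ∀ (v : ℕ → Set Ω → ℝ) (C η : ℝ), 0 < η → (∀ k, IsChg B (v k)) → (∀ k, v k univ ≤ C) →
  ∀ b : ℕ → Set Ω, (∀ k, b k ∈ B) → (∀ i j, i ≠ j → Disjoint (b i) (b j)) →
  ∃ κ : ℕ → ℕ, StrictMono κ ∧
    ∀ i, ∀ F : Finset ℕ, i ∉ F → ∑ j ∈ F, v (κ i) (b (κ j)) ≤ η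

/-! ### Part I, functional analysis -/

/-- ULIM -/
def UlimStmt : Prop := ∀ (E : Type) [NormedAddCommGroup E] [NormedSpace ℂ E]
  (f : ℕ → (E →L[ℂ] ℂ)) (C : ℝ), (∀ n, ‖f n‖ ≤ C) →
  ∃ g : E →L[ℂ] ℂ, ‖g‖ ≤ C ∧
    ∀ x, Tendsto (fun n => f n x) (hyperfilter ℕ : Filter ℕ) (𝓝 (g x))

/-- VAR -/
def VarStmt : Prop := ∀ (Ω A : Type) [NormedAddCommGroup A] [NormedSpace ℂ A] (S : BFS Ω A),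
  (∀ f : A →L[ℂ] ℂ, IsChg S.B (vr S f)) ∧
  (∀ (f : A →L[ℂ] ℂ) (b : Set Ω) (y : A), (∀ t ∉ b, S.ev y t = 0) →
    ‖f y‖ ≤ vr S f b * ‖y‖) ∧
  (∀ (f : A →L[ℂ] ℂ) (b : Set Ω), vr S f b ≤ ‖f‖) ∧
  (∀ f : A →L[ℂ] ℂ, vr S f univ = ‖f‖) ∧
  (∀ (f g : A →L[ℂ] ℂ) (b : Set Ω), vr S (f + g) b ≤ vr S f b + vr S g b) ∧
  (∀ (c : ℂ) (f : A →L[ℂ] ℂ) (b : Set Ω), vr S (c • f) b = ‖c‖ * vr S f b) ∧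
  (∀ (f : A →L[ℂ] ℂ) (b : Set Ω) (r : ℝ), r < vr S f b →
    ∃ y : A, ‖y‖ ≤ 1 ∧ (∀ t ∉ b, S.ev y t = 0) ∧ r < ‖f y‖)

/-- VAR5: the variation is controlled by the values on indicators -/
def Var5Stmt : Prop := ∀ (Ω A : Type) [NormedAddCommGroup A] [NormedSpace ℂ A] (S : BFS Ω A)
  (f : A →L[ℂ] ℂ) (b : Set Ω) (r : ℝ), b ∈ S.B → 0 < r → r ≤ vr S f b →
    ∃ c ∈ S.B, c ⊆ b ∧ ∃ e : A, (∀ t, S.ev e t = c.indicator (fun _ => (1 : ℂ)) t) ∧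
      r / 5 ≤ ‖f e‖

/-- SPLIT -/
def SplitStmt : Prop := ∀ (Ω A : Type) [NormedAddCommGroup A] [NormedSpace ℂ A] (S : BFS Ω A)
  (D : A →L[ℂ] ℂ) (m : Set Ω → ℝ) (δ θ : ℝ), IsChg S.B m → 0 < δ →
  (∀ b ∈ S.B, m b < δ → vr S D b ≤ θ) →
  ∃ g r : A →L[ℂ] ℂ, D = g + r ∧ ‖r‖ ≤ θ ∧
    ∀ b ∈ S.B, vr S g b ≤ 2 * (‖D‖ + 1) / δ * m b

/-- PAR -/
def ParStmt : Prop := ∀ (Ω A : Type) [NormedAddCommGroup A] [NormedSpace ℂ A] (S : BFS Ω A)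
  (m : Set Ω → ℝ) (L : ℝ) (g : ℕ → (A →L[ℂ] ℂ)), IsChg S.B m → 0 ≤ L →
  (∀ n, ∀ b ∈ S.B, vr S (g n) b ≤ L * m b) →
  ∀ η > 0, ∀ N0 : ℕ, ∃ (I K : Finset ℕ) (α β : ℕ → ℝ),
    (∀ i ∈ I, N0 ≤ i) ∧ (∀ i ∈ K, N0 ≤ i) ∧ Disjoint I K ∧ (∀ i, 0 ≤ α i) ∧ (∀ i, 0 ≤ β i) ∧
    ∑ i ∈ I, α i = 1 ∧ ∑ i ∈ K, β i = 1 ∧
    ‖∑ i ∈ I, (α i : ℂ) • g i - ∑ i ∈ K, (β i : ℂ) • g i‖ ≤ η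

/-- FDL -/
def FdlStmt : Prop := ∀ (ι : Type) [Fintype ι] (m : ι → ℝ) (K : ℝ) (N : ℕ) (w : Fin N → ι → ℂ),
  (∀ i, 0 ≤ m i) → 0 ≤ K → LinearIndependent ℂ w →
  (∀ (a : Fin N → ℂ) (j : ι), ‖(∑ i, a i • w i) j‖ ^ 2 ≤
    K * ∑ k, m k * ‖(∑ i, a i • w i) k‖ ^ 2) →
  (N : ℝ) ≤ K * ∑ k, m k

/-- DIM -/
def DimStmt : Prop := ∀ (Ω A : Type) [NormedAddCommGroup A] [NormedSpace ℂ A] (S : BFS Ω A)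
  (m : Set Ω → ℝ) (τ δ κ : ℝ) (N : ℕ) (w : Fin N → A), IsChg S.B m → 0 < τ → τ ≤ 1 → 0 < δ →
  0 < κ → (∀ (a : Fin N → ℂ) (i : Fin N), κ * ‖a i‖ ≤ ‖∑ j, a j • w j‖) →
  (∀ a : Fin N → ℂ, ‖∑ j, a j • w j‖ = 1 → ∀ b ∈ S.B,
    {t | τ ≤ ‖S.ev (∑ j, a j • w j) t‖} ⊆ b → δ ≤ m b) →
  (N : ℝ) ≤ 25 / (9 * τ ^ 2 * δ) * m univ

/-- WUC -/
def WucStmt : Prop := ∀ (Ω A : Type) [NormedAddCommGroup A] [NormedSpace ℂ A] (S : BFS Ω A)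
  (m : Set Ω → ℝ) (L C : ℝ) (z : ℕ → A), IsChg S.B m → 0 ≤ L → 0 ≤ C →
  (∀ (t : Ω) (F : Finset ℕ), ∑ j ∈ F, ‖S.ev (z j) t‖ ≤ C) →
  ∀ ε > 0, ∃ j0 : ℕ, ∀ j ≥ j0, ∀ f : A →L[ℂ] ℂ, (∀ b ∈ S.B, vr S f b ≤ L * m b) →
    ‖f (z j)‖ ≤ ε

section
variable {Ω A : Type} [NormedAddCommGroup A] [NormedSpace ℂ A]

/-- a disjoint sequence in the unit ball -/
def BD (S : BFS Ω A) (b : ℕ → Set Ω) (y : ℕ → A) : Prop :=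
  (∀ n, b n ∈ S.B) ∧ (∀ i j, i ≠ j → Disjoint (b i) (b j)) ∧ (∀ n, ‖y n‖ ≤ 1) ∧
    ∀ n, ∀ t ∉ b n, S.ev (y n) t = 0
end

/-- SUB -/
def SubStmt : Prop := ∀ (A X : Type) [NormedAddCommGroup A] [NormedSpace ℂ A]
  [NormedAddCommGroup X] [NormedSpace ℂ X] (J : A →ₗᵢ[ℂ] X), SepJ J →
  ∀ (ψ : ℕ → (X →L[ℂ] ℂ)) (C : ℝ), (∀ n, ‖ψ n‖ ≤ C) →
  (∀ a : A, Tendsto (fun n => ψ n (J a)) atTop (𝓝 0)) →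
  ∃ κ : ℕ → ℕ, StrictMono κ ∧ ∀ x, ∃ l : ℂ, Tendsto (fun n => ψ (κ n) x) atTop (𝓝 l)

/-- CROSS -/
def CrossStmt : Prop := ∀ (Ω A X : Type) [NormedAddCommGroup A] [NormedSpace ℂ A]
  [NormedAddCommGroup X] [NormedSpace ℂ X] (S : BFS Ω A) (J : A →ₗᵢ[ℂ] X), G0 S → SepJ J →
  ∀ (T : A →L[ℂ] X) (b : ℕ → Set Ω) (y : ℕ → A), BD S b y →
  ∀ ε > 0, ∀ᶠ n in atTop, ∃ z : A, ‖T (y n) - J z‖ < ε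

/-- NS -/
def NsStmt : Prop := ∀ (X : Type) [NormedAddCommGroup X] [NormedSpace ℂ X] [CompleteSpace X]
  (T : X →L[ℂ] X), ¬ IsUnit T →
  (∀ ε > 0, ∃ μ : ℂ, μ ≠ 0 ∧ ‖μ‖ < ε ∧ IsUnit (T - μ • (1 : X →L[ℂ] X))) →
  ¬ Function.Surjective T

/-- FC -/
def FcStmt : Prop := ∀ (X : Type) [NormedAddCommGroup X] [NormedSpace ℂ X] [CompleteSpace X]
  (T : X →L[ℂ] X), DenseRange T → ¬ Function.Surjective T →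
  ∀ (G : Finset (X →L[ℂ] ℂ)), ∀ ε > 0, ∃ w : X, ‖w‖ = 1 ∧ (∀ g ∈ G, g w = 0) ∧ ‖T w‖ < ε

/-- SEL -/
def SelStmt : Prop := ∀ (A X : Type) [NormedAddCommGroup A] [NormedSpace ℂ A]
  [NormedAddCommGroup X] [NormedSpace ℂ X] (J : A →ₗᵢ[ℂ] X) (T : X →L[ℂ] X), SSJ J →
  (∀ (G : Finset (X →L[ℂ] ℂ)), ∀ ε > 0, ∃ w : X, ‖w‖ = 1 ∧ (∀ g ∈ G, g w = 0) ∧ ‖T w‖ < ε) →
  ∀ (N : ℕ), ∀ ε > 0, ∃ (w : Fin N → A) (κ : ℝ), 0 < κ ∧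
    (∀ (a : Fin N → ℂ) (i : Fin N), κ * ‖a i‖ ≤ ‖∑ j, a j • w j‖) ∧
    ∀ a : Fin N → ℂ, ‖T (J (∑ j, a j • w j))‖ ≤ ε * ‖∑ j, a j • w j‖

/-- OM -/
def OmStmt : Prop := ∀ (Ω A X : Type) [NormedAddCommGroup A] [NormedSpace ℂ A]
  [NormedAddCommGroup X] [NormedSpace ℂ X] (S : BFS Ω A) (J : A →ₗᵢ[ℂ] X) (R : X →L[ℂ] X)
  (C : ℝ), 0 < C →
  (∀ N : ℕ, ∃ (w : Fin N → A) (κ : ℝ), 0 < κ ∧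
    (∀ (a : Fin N → ℂ) (i : Fin N), κ * ‖a i‖ ≤ ‖∑ j, a j • w j‖) ∧
    ∀ a : Fin N → ℂ, C * ‖∑ j, a j • w j‖ ≤ ‖R (J (∑ j, a j • w j))‖) →
  ∃ (b : ℕ → Set Ω) (y : ℕ → A), BD S b y ∧ ∀ n, C / 4 ≤ ‖R (J (y n))‖

/-- CLD: the claim in S4 -/
def CldStmt : Prop := ∀ (Ω A X : Type) [NormedAddCommGroup A] [NormedSpace ℂ A]
  [NormedAddCommGroup X] [NormedSpace ℂ X] (S : BFS Ω A) (J : A →ₗᵢ[ℂ] X), G0 S → SepJ J →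
  ∀ (T R : X →L[ℂ] X) (μ : ℂ) (Om L : ℝ) (m : Set Ω → ℝ) (g r : ℕ → (A →L[ℂ] ℂ))
    (h rt : ℕ → (X →L[ℂ] ℂ)), 0 < Om → 0 ≤ L → IsChg S.B m →
  (∀ x, R (T x) = x + μ • R x) →
  (¬ ∃ (b : ℕ → Set Ω) (y : ℕ → A), BD S b y ∧ ∀ n, 2 * Om ≤ ‖R (J (y n))‖) →
  (∀ n, ‖h n‖ ≤ 1) → (∀ n a, h n (R (J a)) = (Om : ℂ) * (g n a + r n a)) →
  (∀ n, ∀ b ∈ S.B, vr S (g n) b ≤ L * m b) → (∀ n, ‖rt n‖ ≤ 6) →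
  (∀ n a, rt n (J a) = r n a) →
  ¬ ∃ (ν : ℕ → ℕ) (c : ℕ → Set Ω), (∀ k, c k ∈ S.B) ∧
    (∀ i j, i ≠ j → Disjoint (c i) (c j)) ∧
    ∀ k, 8 * (‖μ‖ + 1 / Om) ≤
      vr S ((rt (ν k)).comp (T.comp J.toContinuousLinearMap)) (c k)

/-- S4 -/
def S4Stmt : Prop := ∀ (Ω A X : Type) [NormedAddCommGroup A] [NormedSpace ℂ A]
  [NormedAddCommGroup X] [NormedSpace ℂ X] (S : BFS Ω A) (J : A →ₗᵢ[ℂ] X), G0 S → SepJ J →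
  ∀ (T R : X →L[ℂ] X) (μ : ℂ) (s : ℝ), 0 < s → (∀ x, R (T x) = x + μ • R x) →
  (∃ (b : ℕ → Set Ω) (y : ℕ → A), BD S b y ∧ ∀ n, s ≤ ‖R (J (y n))‖) →
  ∀ (P : Finset (A →L[ℂ] ℂ)), ∀ η > 0, ∃ (c : X →L[ℂ] ℂ) (y : A) (b : Set Ω),
    b ∈ S.B ∧ ‖c‖ ≤ 12 ∧ ‖y‖ ≤ 1 ∧ (∀ t ∉ b, S.ev y t = 0) ∧ 1 / 4 ≤ ‖c (J y)‖ ∧
    (∀ f ∈ P, vr S f b ≤ η) ∧ ∀ a : A, ‖c (T (J a))‖ ≤ 40 * (‖μ‖ + 1 / s) * ‖a‖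

/-- S5 -/
def S5Stmt : Prop := ∀ (Ω A X : Type) [NormedAddCommGroup A] [NormedSpace ℂ A]
  [NormedAddCommGroup X] [NormedSpace ℂ X] (S : BFS Ω A) (J : A →ₗᵢ[ℂ] X), G0 S → SepJ J →
  ∀ (T : X →L[ℂ] X), DenseRange T →
  (∀ ε > 0, ∀ (P : Finset (A →L[ℂ] ℂ)), ∀ η > 0, ∃ (c : X →L[ℂ] ℂ) (y : A) (b : Set Ω),
    b ∈ S.B ∧ ‖c‖ ≤ 12 ∧ ‖y‖ ≤ 1 ∧ (∀ t ∉ b, S.ev y t = 0) ∧ 1 / 4 ≤ ‖c (J y)‖ ∧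
    (∀ f ∈ P, vr S f b ≤ η) ∧ ∀ a : A, ‖c (T (J a))‖ ≤ ε * ‖a‖) → False

/-- B0: the general theorem -/
def B0Stmt : Prop := ∀ (Ω A X : Type) [NormedAddCommGroup A] [NormedSpace ℂ A]
  [NormedAddCommGroup X] [NormedSpace ℂ X] [CompleteSpace X] (S : BFS Ω A) (J : A →ₗᵢ[ℂ] X),
  G0 S → SepJ J → SSJ J → PropB X

/-! ### Part II: the example -/

/-- BFS -/
def BfsStmt : Prop := ∀ (Ω ι : Type) [MeasurableSpace Ω] [Countable ι]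
  (P Q : ι → Ultrafilter Ω), ∃ S : BFS Ω (PA P Q), S.B = PB P Q ∧
    ∀ (a : PA P Q) (t : Ω), S.ev a t = ((a : LI Ω) : Ω → ℂ) t

/-- GZ -/
def GzStmt : Prop := ∀ (Ω ι : Type) [MeasurableSpace Ω] [Countable ι]
  (P Q : ι → Ultrafilter Ω) (S : BFS Ω (PA P Q)), S.B = PB P Q →
    (∀ (a : PA P Q) (t : Ω), S.ev a t = ((a : LI Ω) : Ω → ℂ) t) → G0 S

/-- HT -/
def HtStmt : Prop :=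
  (∀ σ x, x ∈ cyl σ → ht x σ.length = htL σ) ∧ (∀ x i, i ≤ ht x i) ∧
  (∀ x i j, i ≤ j → ht x i ≤ ht x j) ∧ (∀ σ s, htL (σ ++ [s]) = nxt (htL σ) s) ∧
  (∀ σ s x, x ∈ cyl (σ ++ [s]) ↔ x ∈ cyl σ ∧ x σ.length = s) ∧
  (∀ M s n, cf1 M s n ≠ 0 → M ≤ n ∧ n < nxt M s) ∧
  (∀ M s n, cf2 M s n ≠ 0 → M ≤ n ∧ n < nxt M s)

/-- UB: size of the coordinate functions of the first kind -/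
def UbStmt : Prop :=
  (∀ n x, ‖u1 n x‖ ≤ 1) ∧ (∀ n x, ‖u2 n x‖ ≤ 1) ∧
  ∀ (x : Pt) (F : Finset ℕ) (k : ℕ), ∑ n ∈ F, ‖u1 n x‖ ≤
    k * Real.sqrt F.card + (F.card : ℝ) / (k + 1)

/-- JMP -/
def JmpStmt : Prop := ∀ (σ : List Sym) (s : Sym), isBlk s → ∀ v : VV,
  LU (qF (σ ++ [s])) (UU v) - LU (pF σ) (UU v) = prg (htL σ) s v

/-- YY -/
def YyStmt : Prop := ∀ (v : VV) (C : ℝ), Bd v C → ∃ a ∈ AA, ‖UU v - a‖ ≤ C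

/-- XM -/
def XmStmt : Prop := (∀ x ∈ XX, Measurable (x : Pt → ℂ)) ∧ (∀ v, UU v ∈ XX) ∧
  (∀ x ∈ XX, ∀ ε > 0, ∃ (v : VV), ∃ a ∈ AA, ‖x - a - UU v‖ < ε)

/-- BC -/
def BcStmt : Prop := ∀ (w : ℕ → LI Pt) (δ : ℝ), 0 < δ → (∀ j, Measurable (w j : Pt → ℂ)) →
  (∀ σ : List Sym, ∃ j0 : ℕ, ∀ j ≥ j0, ∃ s : Sym, isBlk s ∧
    δ ≤ ‖LU (qF (σ ++ [s])) (w j) - LU (pF σ) (w j)‖) →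
  ∀ r : ℕ, ∃ j : Fin r → ℕ, StrictMono j ∧ ∃ x : Pt, ∀ i, δ / 3 ≤ ‖(w (j i) : Pt → ℂ) x‖

/-- vectors supported in [m, m') -/
def SupIn (v : VV) (m m' : ℕ) : Prop :=
  (∀ n, v.1 n ≠ 0 → m ≤ n ∧ n < m') ∧ (∀ n, v.2 n ≠ 0 → m ≤ n ∧ n < m')

/-- NRM -/
def NrmStmt : Prop := ∀ (v : VV) (K : ℝ), 0 ≤ K → (∀ s, isBlk s → ‖prg 0 s v‖ ≤ K) →
  Bd v (3 * K)

/-- BLK -/
def BlkStmt : Prop := ∀ Z : Submodule ℂ XX, ¬ FiniteDimensional ℂ Z → ∀ η > 0, ∃ (w : ℕ → XX)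
  (v : ℕ → VV) (a : ℕ → LI Pt) (m : ℕ → ℕ), StrictMono m ∧ (∀ j, w j ∈ Z) ∧ (∀ j, ‖w j‖ = 1) ∧
  (∀ j, a j ∈ AA) ∧ (∀ j, SupIn (v j) (m j) (m (j + 1))) ∧
  ∀ j, ‖(w j : LI Pt) - a j - UU (v j)‖ ≤ η * (1 / 2) ^ j

/-- FLAT -/
def FlatStmt : Prop := ∀ (v : ℕ → VV) (m : ℕ → ℕ) (c : ℝ), 0 < c → StrictMono m →
  (∀ j, SupIn (v j) (m j) (m (j + 1))) → (∃ C, ∀ j, Bd (v j) C) → (∀ j, ¬ Bd (v j) c) →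
  ∃ (F : ℕ → Finset ℕ) (t : ℕ → ℝ), (∀ i, (F i).Nonempty) ∧
    (∀ i, ∀ j ∈ F i, ∀ j' ∈ F (i + 1), j < j') ∧
    (∀ i, 0 < t i) ∧ (∀ i, t i ≤ 1) ∧ (∀ i, t i ^ 2 * (F i).card ≤ 1) ∧
    ∀ M : ℕ, ∃ i0 : ℕ, ∀ i ≥ i0, ∃ s : Sym, isBlk s ∧
      c / 4 ≤ ‖prg M s (∑ j ∈ F i, (t i : ℂ) • v j)‖

/-- SS -/
def SsStmt : Prop := SSJ JJ

/-- SEP -/
def SepStmt : Prop := SepJ JJ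

/-- NG -/
def NgStmt : Prop := ¬ GrothendieckProp XX

/-- ND -/
def NdStmt : Prop := ¬ DunfordPettisProp XX

end Pool.Agent.Helper83_DPB
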